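import Pool.Agent.Helper63.QR.C30

/-!
# C27: codes with a small ball are rare
-/

namespace QR

noncomputable section

open Finset PowerSeries

namespace H63

/-- nonnegative coefficients -/
def NN (a : PowerSeries ℝ) : Prop := ∀ n, 0 ≤ coeff n a

theorem NN_add {a b : PowerSeries ℝ} (ha : NN a) (hb : NN b) : NN (a + b) := by
  intro n
  rw [map_add]
  exact add_nonneg (ha n) (hb n)

theorem NN_mul {a b : PowerSeries ℝ} (ha : NN a) (hb : NN b) : NN (a * b) := by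
  intro n
  rw [PowerSeries.coeff_mul]
  exact Finset.sum_nonneg fun p _ => mul_nonneg (ha _) (hb _)

theorem NN_zero : NN 0 := by intro n; simp

theorem NN_one : NN 1 := by
  intro n
  rw [PowerSeries.coeff_one]
  split_ifs <;> norm_num

theorem NN_prod (s : Finset ℤ) (a : ℤ → PowerSeries ℝ) (ha : ∀ i ∈ s, NN (a i)) : NN (∏ i ∈ s, a i) := by
  classical
  induction s using Finset.induction_on with
  | empty => simpa using NN_one
  | insert i s hi ih =>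
    rw [Finset.prod_insert hi]
    exact NN_mul (ha i (Finset.mem_insert_self _ _)) (ih fun j hj => ha j (Finset.mem_insert_of_mem hj))

theorem NN_sum {ι : Type*} (s : Finset ι) (a : ι → PowerSeries ℝ) (ha : ∀ i ∈ s, NN (a i)) :
    NN (∑ i ∈ s, a i) := by
  classical
  induction s using Finset.induction_on with
  | empty => simpa using NN_zero
  | insert i s hi ih =>
    rw [Finset.sum_insert hi]
    exact NN_add (ha i (Finset.mem_insert_self _ _)) (ih fun j hj => ha j (Finset.mem_insert_of_mem hj))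

theorem NN_diff (s : Finset ℤ) (a b : ℤ → PowerSeries ℝ) (ha : ∀ i ∈ s, NN (a i)) (hb : ∀ i ∈ s, NN (b i))
    (hab : ∀ i ∈ s, NN (a i - b i)) : NN (∏ i ∈ s, a i - ∏ i ∈ s, b i) := by
  classical
  induction s using Finset.induction_on with
  | empty => simpa using NN_zero
  | insert y s hy ih =>
    rw [Finset.prod_insert hy, Finset.prod_insert hy]
    have e3 : a y * ∏ i ∈ s, a i - b y * ∏ i ∈ s, b i =
        (a y - b y) * ∏ i ∈ s, a i + b y * (∏ i ∈ s, a i - ∏ i ∈ s, b i) := by ring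
    rw [e3]
    apply NN_add
    · exact NN_mul (hab y (Finset.mem_insert_self _ _))
        (NN_prod s a fun j hj => ha j (Finset.mem_insert_of_mem hj))
    · apply NN_mul (hb y (Finset.mem_insert_self _ _))
      exact ih (fun j hj => ha j (Finset.mem_insert_of_mem hj)) (fun j hj => hb j (Finset.mem_insert_of_mem hj))
        (fun j hj => hab j (Finset.mem_insert_of_mem hj))

/-- telescoping -/
theorem NN_tele (s : Finset ℤ) (a b : ℤ → PowerSeries ℝ) (ha : ∀ i ∈ s, NN (a i)) (hb : ∀ i ∈ s, NN (b i))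
    (hab : ∀ i ∈ s, NN (a i - b i)) :
    NN (∑ i ∈ s, (∏ j ∈ s, if j = i then a j - b j else a j) - (∏ i ∈ s, a i - ∏ i ∈ s, b i)) := by
  classical
  induction s using Finset.induction_on with
  | empty => simpa using NN_zero
  | insert x s hx ih =>
    have ha' : ∀ i ∈ s, NN (a i) := fun j hj => ha j (Finset.mem_insert_of_mem hj)
    have hb' : ∀ i ∈ s, NN (b i) := fun j hj => hb j (Finset.mem_insert_of_mem hj)
    have hab' : ∀ i ∈ s, NN (a i - b i) := fun j hj => hab j (Finset.mem_insert_of_mem hj)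
    have hax := ha x (Finset.mem_insert_self _ _)
    have habx := hab x (Finset.mem_insert_self _ _)
    have ih' := ih ha' hb' hab'
    rw [Finset.sum_insert hx, Finset.prod_insert hx, Finset.prod_insert hx, Finset.prod_insert hx, if_pos rfl]
    have e1 : ∏ j ∈ s, (if j = x then a j - b j else a j) = ∏ j ∈ s, a j := by
      apply Finset.prod_congr rfl
      intro j hj
      rw [if_neg (by rintro rfl; exact hx hj)]
    have e2 : ∑ i ∈ s, (∏ j ∈ insert x s, if j = i then a j - b j else a j) =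
        a x * ∑ i ∈ s, (∏ j ∈ s, if j = i then a j - b j else a j) := by
      rw [Finset.mul_sum]
      apply Finset.sum_congr rfl
      intro i hi
      rw [Finset.prod_insert hx, if_neg (by rintro rfl; exact hx hi)]
    rw [e1, e2]
    have e4 : (a x - b x) * ∏ j ∈ s, a j + a x * ∑ i ∈ s, (∏ j ∈ s, if j = i then a j - b j else a j) -
        (a x * ∏ i ∈ s, a i - b x * ∏ i ∈ s, b i) =
        a x * (∑ i ∈ s, (∏ j ∈ s, if j = i then a j - b j else a j) - (∏ i ∈ s, a i - ∏ i ∈ s, b i)) +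
        (a x - b x) * (∏ i ∈ s, a i - ∏ i ∈ s, b i) := by ring
    rw [e4]
    exact NN_add (NN_mul hax ih') (NN_mul habx (NN_diff s a b ha' hb' hab'))

theorem W_pos (h04 : ST_C04) (P : ℕ) (c : Code P) (κ : ℝ) (r j : ℤ) (h : ∀ i ∈ dn P c.b, (c.t i).ge j (c.b i)) :
    c.W one (dmp κ r j) = (1 - κ) ^ (∑ i ∈ dn P c.b, (c.t i).low r (c.b i)) := by
  classical
  rw [Code.W, ← Finset.prod_pow_eq_pow_sum]
  apply Finset.prod_congr rfl
  intro i hi
  rw [h04.2.1, if_pos (h i hi)]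

theorem W_neg (h04 : ST_C04) (P : ℕ) (c : Code P) (κ : ℝ) (r j : ℤ) (h : ¬ ∀ i ∈ dn P c.b, (c.t i).ge j (c.b i)) :
    c.W one (dmp κ r j) = 0 := by
  classical
  push Not at h
  obtain ⟨i, hi, h2⟩ := h
  rw [Code.W]
  apply Finset.prod_eq_zero hi
  rw [h04.2.1, if_neg h2]

theorem quarter (t : ℕ) (ht : 2 ≤ t) (m : ℕ) (hm : m < t ^ 56) : 1 / 4 ≤ (1 - 1 / (t : ℝ) ^ 56) ^ m := by
  have h1 : (2 : ℝ) ≤ (t : ℝ) ^ 56 := by
    have h2 : (2 : ℝ) ≤ t := by exact_mod_cast ht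
    calc (2 : ℝ) ≤ 2 ^ 56 := by norm_num
      _ ≤ (t : ℝ) ^ 56 := pow_le_pow_left₀ (by norm_num) h2 56
  set n : ℝ := (t : ℝ) ^ 56 with hn
  have h3 : (0 : ℝ) ≤ 1 - 1 / n := by
    rw [sub_nonneg, div_le_one (by linarith)]
    linarith
  have h4 : 1 - 1 / n ≤ 1 := by
    have : 0 ≤ 1 / n := by positivity
    linarith
  have h5 : (1 - 1 / n) ^ (t ^ 56) ≤ (1 - 1 / n) ^ m := pow_le_pow_of_le_one h3 h4 hm.le
  refine le_trans ?_ h5
  have h6 : 1 + (n / 2) * (-(1 / n)) ≤ (1 + -(1 / n)) ^ (n / 2) :=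
    one_add_mul_self_le_rpow_one_add (by linarith) (by linarith)
  have h7 : 1 + (n / 2) * (-(1 / n)) = 1 / 2 := by
    field_simp
    ring
  rw [h7] at h6
  have h8 : (1 - 1 / n) ^ (t ^ 56) = ((1 + -(1 / n)) ^ (n / 2)) ^ 2 := by
    rw [← Real.rpow_natCast ((1 + -(1 / n)) ^ (n / 2)) 2, ← Real.rpow_mul (by linarith), ← Real.rpow_natCast]
    congr 1
    push_cast
    rw [← hn]
    ring
  rw [h8]
  calc (1 / 4 : ℝ) = (1 / 2) ^ 2 := by norm_num
    _ ≤ _ := pow_le_pow_left₀ (by norm_num) h6 2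

theorem CS_coeff (h01 : ST_C01) (P N : ℕ) (k : ℤ) (hP : 1 ≤ P) (ω θ : ℤ → ℝ) :
    coeff N (CS ω θ P k) = (1 / 12 : ℝ) ^ N * ∑ c ∈ (h01.2.2 P N k hP).toFinset, c.W ω θ := by
  rw [CS, PowerSeries.coeff_mk]
  congr 1
  exact finsum_mem_eq_finite_toFinset_sum _ (h01.2.2 P N k hP)

theorem BS_coeff (h01 : ST_C01) (h04 : ST_C04) (t P N : ℕ) (k : ℤ) (ht : 2 ≤ t) (hP : 1 ≤ P)
    (hk : 1 ≤ k) : coeff N (BS t P k) ≤ 4 * (coeff N (CS one (dmp (1 / (t : ℝ) ^ 56) (4 * t ^ 16) 1) P k) -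
      coeff N (CS one (dmp (1 / (t : ℝ) ^ 56) (4 * t ^ 16) 2) P k)) := by
  classical
  rw [CS_coeff h01 P N k hP, CS_coeff h01 P N k hP, BS, PowerSeries.coeff_mk, ← mul_sub, ← Finset.sum_sub_distrib,
    mul_left_comm]
  apply mul_le_mul_of_nonneg_left _ (by positivity)
  set S := (h01.2.2 P N k hP).toFinset with hS
  have hmem : ∀ c, c ∈ S ↔ c.Min k ∧ c.size = N := fun c => (h01.2.2 P N k hP).mem_toFinset
  set B : Code P → Prop := fun c => c.Pos ∧ 1 ≤ c.cor 1 ∧ c.low (4 * t ^ 16) < t ^ 56 with hB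
  have e0 : {c : Code P | c.Min k ∧ c.size = N ∧ c.Pos ∧ 1 ≤ c.cor 1 ∧ c.low (4 * t ^ 16) < t ^ 56} =
      ((S.filter B : Finset (Code P)) : Set (Code P)) := by
    ext c
    rw [Finset.coe_filter, Set.mem_ofPred_eq, Set.mem_ofPred_eq, hmem, and_assoc]
  have e1 : Nat.card {c : Code P // c.Min k ∧ c.size = N ∧ c.Pos ∧ 1 ≤ c.cor 1 ∧ c.low (4 * t ^ 16) < t ^ 56} =
      (S.filter B).card := by
    rw [← Set.ncard_coe_finset, ← e0]
    rfl
  rw [e1, Finset.card_filter, Finset.mul_sum]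
  push_cast
  apply Finset.sum_le_sum
  intro c hc
  rw [hmem] at hc
  have hb2 : ∀ i ∈ dn P c.b, 2 ≤ c.b i := by
    intro i hi
    rw [dn, Finset.mem_filter] at hi
    have := hc.1.1 (i + 1)
    omega
  have hge : (∀ i ∈ dn P c.b, (c.t i).ge 2 (c.b i)) → ∀ i ∈ dn P c.b, (c.t i).ge 1 (c.b i) :=
    fun h i hi => h04.2.2.2.2.1 _ _ 1 (h i hi)
  have ht1 : (1 : ℝ) ≤ (t : ℝ) ^ 56 := one_le_pow₀ (by exact_mod_cast (by omega : 1 ≤ t))
  have hκ : (0 : ℝ) ≤ 1 - 1 / (t : ℝ) ^ 56 := by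
    rw [sub_nonneg, div_le_one (by linarith)]
    exact ht1
  by_cases h1 : ∀ i ∈ dn P c.b, (c.t i).ge 1 (c.b i)
  · by_cases h2 : ∀ i ∈ dn P c.b, (c.t i).ge 2 (c.b i)
    · rw [W_pos h04 _ _ _ _ _ h1, W_pos h04 _ _ _ _ _ h2, sub_self, mul_zero, if_neg]
      rintro ⟨_, h3, _⟩
      have h4 : c.cor 1 = 0 := by
        rw [Code.cor]
        apply Finset.sum_eq_zero
        intro i hi
        exact (h04.2.2.2.2.2 _ _ (hb2 i hi) (h1 i hi)).2 (h2 i hi)
      omega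
    · rw [W_pos h04 _ _ _ _ _ h1, W_neg h04 _ _ _ _ _ h2, sub_zero]
      by_cases h3 : B c
      · rw [if_pos h3]
        have h4 : ∑ i ∈ dn P c.b, (c.t i).low (4 * t ^ 16) (c.b i) < t ^ 56 := by
          refine lt_of_le_of_lt ?_ h3.2.2
          rw [Code.low]
          apply Finset.sum_le_sum
          intro i _
          omega
        have h5 := quarter t ht _ h4
        linarith
      · rw [if_neg h3]
        exact mul_nonneg (by norm_num) (pow_nonneg hκ _)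
  · rw [W_neg h04 _ _ _ _ _ h1, W_neg h04 _ _ _ _ _ (fun h2 => h1 (hge h2)), sub_self, mul_zero, if_neg]
    rintro ⟨h3, _⟩
    apply h1
    intro i hi
    rw [dn, Finset.mem_filter] at hi
    exact (h3 i hi.2).2

theorem TL_sum (h11 : ST_C11) {ι : Type*} (s : Finset ι) (a : ι → PowerSeries ℝ) (c : ι → ℝ)
    (h : ∀ i ∈ s, TL (a i) (c i)) : TL (∑ i ∈ s, a i) (∑ i ∈ s, c i) := by
  classical
  induction s using Finset.induction_on with
  | empty => simpa using h11.2.2.2.2.2.2.1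
  | insert i s hi ih =>
    rw [Finset.sum_insert hi, Finset.sum_insert hi]
    exact h11.1 _ _ _ _ (h i (Finset.mem_insert_self _ _)) (ih fun j hj => h j (Finset.mem_insert_of_mem hj))

theorem one_le_prod (s : Finset ℤ) (W : ℤ → ℝ) (h : ∀ i ∈ s, 1 ≤ W i) : 1 ≤ ∏ i ∈ s, W i :=
  Finset.prod_induction W (fun x => 1 ≤ x) (fun _ _ ha hb => one_le_mul_of_one_le_of_one_le ha hb) le_rfl h

theorem prod_sub (s u : Finset ℤ) (hu : u ⊆ s) (W : ℤ → ℝ) (h : ∀ i ∈ s, 1 ≤ W i) :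
    ∏ i ∈ u, W i ≤ ∏ i ∈ s, W i := by
  classical
  rw [← Finset.prod_sdiff hu]
  have h1 := one_le_prod (s \ u) W fun i hi => h i (Finset.mem_sdiff.1 hi).1
  have h2 := one_le_prod u W fun i hi => h i (hu hi)
  exact le_mul_of_one_le_left (by linarith) h1

theorem prod_bd (s : Finset ℤ) (i0 i : ℤ) (hi0 : i0 ∈ s) (W : ℤ → ℝ) (h : ∀ i ∈ s, 1 ≤ W i)
    (e : ℝ) (he : 0 ≤ e) :
    ∏ j ∈ s.erase i, (if j = i0 then e else W j) ≤ (if i = i0 then 1 else e) * ∏ j ∈ s, W j := by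
  classical
  by_cases h1 : i = i0
  · subst h1
    rw [if_pos rfl, one_mul]
    have e1 : ∏ j ∈ s.erase i, (if j = i then e else W j) = ∏ j ∈ s.erase i, W j := by
      apply Finset.prod_congr rfl
      intro j hj
      rw [if_neg (Finset.ne_of_mem_erase hj)]
    rw [e1]
    exact prod_sub s _ (Finset.erase_subset _ _) W h
  · rw [if_neg h1]
    have h2 : i0 ∈ s.erase i := Finset.mem_erase.2 ⟨fun h => h1 h.symm, hi0⟩
    rw [← Finset.mul_prod_erase _ _ h2, if_pos rfl]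
    apply mul_le_mul_of_nonneg_left _ he
    have e1 : ∏ j ∈ (s.erase i).erase i0, (if j = i0 then e else W j) = ∏ j ∈ (s.erase i).erase i0, W j := by
      apply Finset.prod_congr rfl
      intro j hj
      rw [if_neg (Finset.ne_of_mem_erase hj)]
    rw [e1]
    exact prod_sub s _ ((Finset.erase_subset _ _).trans (Finset.erase_subset _ _)) W h

theorem const_bd (s : Finset ℤ) (i0 : ℤ) (hi0 : i0 ∈ s) (W c : ℤ → ℝ) (h : ∀ i ∈ s, 1 ≤ W i)
    (hc : ∀ i ∈ s, 0 ≤ c i) (e c0 : ℝ) (he : 0 ≤ e) (hc0 : 0 ≤ c0) :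
    ∑ i ∈ s, (if i = i0 then c0 else c i) * ∏ j ∈ s.erase i, (if j = i0 then e else W j) ≤
      (c0 + e * ∑ i ∈ s, c i) * ∏ j ∈ s, W j := by
  classical
  have hW : 0 ≤ ∏ j ∈ s, W j := by linarith [one_le_prod s W h]
  have h1 : ∀ i ∈ s, (if i = i0 then c0 else c i) * ∏ j ∈ s.erase i, (if j = i0 then e else W j) ≤
      ((if i = i0 then c0 else 0) + e * c i) * ∏ j ∈ s, W j := by
    intro i hi
    have h2 : 0 ≤ (if i = i0 then c0 else c i) := by
      split_ifs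
      · exact hc0
      · exact hc i hi
    refine (mul_le_mul_of_nonneg_left (prod_bd s i0 i hi0 W h e he) h2).trans ?_
    rw [← mul_assoc]
    apply mul_le_mul_of_nonneg_right _ hW
    by_cases h3 : i = i0
    · simp only [if_pos h3]
      have := mul_nonneg he (hc i hi)
      linarith
    · simp only [if_neg h3]
      linarith
  refine (Finset.sum_le_sum h1).trans (le_of_eq ?_)
  rw [← Finset.sum_mul, Finset.sum_add_distrib, Finset.sum_ite_eq' s i0 (fun _ => c0), if_pos hi0, ← Finset.mul_sum]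

theorem Aw_one (l : ℤ) (hl : 1 ≤ l) : 1 ≤ Aw l := by
  have h : (1 : ℝ) ≤ l := by exact_mod_cast hl
  rw [Aw, le_div_iff₀ (by positivity)]
  nlinarith

theorem T1_TL (h10 : ST_C10) (h11 : ST_C11) (h21 : ST_C21) (κ : ℝ) (r l : ℤ) (h0 : 0 < κ) (h1 : κ < 1) (hr : 1 ≤ r)
    (hl : 1 ≤ l) : TL (TS one (dmp κ r 1) l) (4 * ((l : ℝ) + 1) ^ 4) ∧ tot (TS one (dmp κ r 1) l) ≤ Aw l := by
  have h2 := (h21 κ r h0 h1 hr).2.2 l hl 1 (by simp) (by simpa using hl)
  have h3 := h10.1 l hl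
  have h4 : ∀ n, coeff n (TS one (dmp κ r 1) l) ≤ coeff n (TS one pos l) := by
    intro n
    have := h2.2.1 n
    simpa using this
  refine ⟨h11.2.2.2.1 _ _ _ h2.1.1 h4 h3.1, ?_⟩
  rw [← h3.2]
  exact Summable.tsum_le_tsum h4 h2.1.2 h3.1.1.2

/-- the majorant of one walk -/
def Mj (κ : ℝ) (r : ℤ) (P : ℕ) (b : ℤ → ℤ) : PowerSeries ℝ :=
  ∑ i ∈ dn P b, ∏ j ∈ dn P b, if j = i then TS one (dmp κ r 1) (b j) - TS one (dmp κ r 2) (b j) else
    TS one (dmp κ r 1) (b j)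

/-- the summand in C26 -/
def Psi (P : ℕ) (b : ℤ → ℤ) : ℝ :=
  (∑ i ∈ dn P b, 1 / (b i : ℝ) ^ 3) * (∑ i ∈ dn P b, ((b i : ℝ) + 1) ^ 4) * ∏ i ∈ dn P b, Aw (b i)

theorem DD_eq (κ : ℝ) (r l : ℤ) (hl : 2 ≤ l) :
    TS one (dmp κ r 1) l - TS one (dmp κ r 2) l = DD κ r l := by
  rw [DD, if_pos hl]

theorem Mj_TL (h10 : ST_C10) (h11 : ST_C11) (h13 : ST_C13) (h21 : ST_C21) (h24 : ST_C24)
    (t P : ℕ) (k : ℤ) (ht : 2 ≤ t) (hk : 4 * (t : ℤ) ^ 16 ≤ k) (A : ℕ) (K : ℝ) (hK0 : 0 ≤ K)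
    (hK : ∀ l : ℤ, 4 * (t : ℤ) ^ 16 ≤ l →
      TL (DD (1 / (t : ℝ) ^ 56) (4 * t ^ 16) l) (K / (t : ℝ) ^ A * ((l : ℝ) + 1) ^ 3))
    (b : ℤ → ℤ) (hb : b ∈ Brd P k) :
    TL (Mj (1 / (t : ℝ) ^ 56) (4 * t ^ 16) P b) (K / (t : ℝ) ^ A * Phi P b +
      4 * (3 * Real.exp (-(t : ℝ) ^ 2 / 4) * (2 * (t : ℝ) ^ 16 + 2) ^ 3) * Psi P b) := by
  classical
  set E : ℝ := 3 * Real.exp (-(t : ℝ) ^ 2 / 4) * (2 * (t : ℝ) ^ 16 + 2) ^ 3 with hE
  have hE0 : 0 ≤ E := by positivity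
  set κ : ℝ := 1 / (t : ℝ) ^ 56 with hκ
  set r : ℤ := 4 * (t : ℤ) ^ 16 with hr
  have ht2 : (2 : ℝ) ≤ t := by exact_mod_cast ht
  have ht56 : (1 : ℝ) < (t : ℝ) ^ 56 := one_lt_pow₀ (by linarith) (by norm_num)
  have hκ0 : 0 < κ := by positivity
  have hκ1 : κ < 1 := by
    rw [hκ, div_lt_one (by linarith)]
    exact ht56
  have ht16 : (1 : ℤ) ≤ (t : ℤ) ^ 16 := one_le_pow₀ (by exact_mod_cast (by omega : 1 ≤ t))
  have hr1 : 1 ≤ r := by omega
  have hx0 : 0 ≤ K / (t : ℝ) ^ A := by positivity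
  have hbk : ∀ i ∈ dn P b, k + 1 ≤ b i := by
    intro i hi
    rw [dn, Finset.mem_filter] at hi
    have := hb.2.2.1 (i + 1)
    omega
  have hb1 : ∀ i ∈ dn P b, (1 : ℝ) ≤ b i := by
    intro i hi
    have := hbk i hi
    exact_mod_cast (by omega : (1 : ℤ) ≤ b i)
  have hW : ∀ i ∈ dn P b, 1 ≤ Aw (b i) := by
    intro i hi
    apply Aw_one
    have := hbk i hi
    omega
  have hPi : 0 ≤ ∏ i ∈ dn P b, Aw (b i) := by
    have := one_le_prod _ (fun i => Aw (b i)) hW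
    linarith
  have hS4 : 0 ≤ ∑ i ∈ dn P b, 4 * ((b i : ℝ) + 1) ^ 4 := Finset.sum_nonneg fun i _ => by positivity
  have key : ∀ i0 ∈ dn P b, TL (∏ j ∈ dn P b, if j = i0 then TS one (dmp κ r 1) (b j) - TS one (dmp κ r 2) (b j) else
      TS one (dmp κ r 1) (b j)) ((K / (t : ℝ) ^ A * ((b i0 : ℝ) + 1) ^ 4 + E * (1 / (b i0 : ℝ) ^ 3) *
        ∑ i ∈ dn P b, 4 * ((b i : ℝ) + 1) ^ 4) * ∏ i ∈ dn P b, Aw (b i)) := by
    intro i0 hi0
    have hbi0 := hb1 i0 hi0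
    have h1 := h13.1 (dn P b) (fun j => if j = i0 then TS one (dmp κ r 1) (b j) - TS one (dmp κ r 2) (b j) else
      TS one (dmp κ r 1) (b j)) (fun j => if j = i0 then K / (t : ℝ) ^ A * ((b i0 : ℝ) + 1) ^ 3 else
        4 * ((b j : ℝ) + 1) ^ 4) (fun j => if j = i0 then E * (1 / (b i0 : ℝ) ^ 3) else Aw (b j)) ?_ ?_ ?_
    · refine h11.2.2.2.2.1 _ _ _ h1.1 ?_
      refine (const_bd (dn P b) i0 hi0 (fun j => Aw (b j)) (fun j => 4 * ((b j : ℝ) + 1) ^ 4) hW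
        (fun i _ => by positivity) (E * (1 / (b i0 : ℝ) ^ 3)) (K / (t : ℝ) ^ A * ((b i0 : ℝ) + 1) ^ 3)
        (by positivity) (by positivity)).trans ?_
      apply mul_le_mul_of_nonneg_right _ hPi
      apply add_le_add _ le_rfl
      apply mul_le_mul_of_nonneg_left _ hx0
      exact pow_le_pow_right₀ (by linarith) (by norm_num)
    · intro i hi
      split_ifs <;> positivity
    · intro i hi
      have hbi := hbk i hi
      by_cases h2 : i = i0
      · rw [if_pos h2, if_pos h2, DD_eq _ _ _ (by omega), ← h2]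
        exact hK _ (by omega)
      · rw [if_neg h2, if_neg h2]
        exact (T1_TL h10 h11 h21 κ r (b i) hκ0 hκ1 hr1 (by omega)).1
    · intro i hi
      have hbi := hbk i hi
      by_cases h2 : i = i0
      · rw [if_pos h2, if_pos h2, DD_eq _ _ _ (by omega), ← h2]
        have h3 := h24 t (b i) ht (by omega)
        refine h3.trans (le_of_eq ?_)
        rw [hE]
        ring
      · rw [if_neg h2, if_neg h2]
        exact (T1_TL h10 h11 h21 κ r (b i) hκ0 hκ1 hr1 (by omega)).2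
  have h5 := TL_sum h11 (dn P b) _ _ key
  refine h11.2.2.2.2.1 _ _ _ h5 (le_of_eq ?_)
  rw [← Finset.sum_mul, Finset.sum_add_distrib, ← Finset.mul_sum, ← Finset.sum_mul, ← Finset.mul_sum, ← Finset.mul_sum,
    Phi, Psi]
  ring

theorem Phi_nonneg' (P : ℕ) (k : ℤ) (hk : 0 ≤ k) (hP : 1 ≤ P) : 0 ≤ Kst P k := by
  have hB := Brd_fin P hP k
  have e1 : Kst P k = ∑ b ∈ hB.toFinset, Phi P b := by
    rw [Kst, finsum_mem_eq_finite_toFinset_sum _ hB]
    rfl
  rw [e1]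
  exact Finset.sum_nonneg fun b hb => Phi_nonneg P k hk b (hB.mem_toFinset.1 hb)

theorem E_bd (A t : ℕ) (ht : 2 ≤ t) : 3 * Real.exp (-(t : ℝ) ^ 2 / 4) * (2 * (t : ℝ) ^ 16 + 2) ^ 3 ≤
    192 * ((24 + A).factorial : ℝ) * 4 ^ (24 + A) / (t : ℝ) ^ A := by
  have ht2 : (2 : ℝ) ≤ t := by exact_mod_cast ht
  have ht1 : (1 : ℝ) ≤ (t : ℝ) ^ 16 := one_le_pow₀ (by linarith)
  have h1 : (2 * (t : ℝ) ^ 16 + 2) ^ 3 ≤ 64 * (t : ℝ) ^ 48 := by
    calc (2 * (t : ℝ) ^ 16 + 2) ^ 3 ≤ (4 * (t : ℝ) ^ 16) ^ 3 := pow_le_pow_left₀ (by positivity) (by linarith) 3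
      _ = 64 * (t : ℝ) ^ 48 := by ring
  have h2 := Real.pow_div_factorial_le_exp ((t : ℝ) ^ 2 / 4) (by positivity) (24 + A)
  have h3 : Real.exp (-(t : ℝ) ^ 2 / 4) ≤ ((24 + A).factorial : ℝ) * 4 ^ (24 + A) / (t : ℝ) ^ (2 * (24 + A)) := by
    rw [show -(t : ℝ) ^ 2 / 4 = -((t : ℝ) ^ 2 / 4) by ring, Real.exp_neg]
    have h4 : 0 < ((t : ℝ) ^ 2 / 4) ^ (24 + A) / ((24 + A).factorial : ℝ) := by positivity
    calc (Real.exp ((t : ℝ) ^ 2 / 4))⁻¹ ≤ (((t : ℝ) ^ 2 / 4) ^ (24 + A) / ((24 + A).factorial : ℝ))⁻¹ :=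
          inv_anti₀ h4 h2
      _ = _ := by
        rw [inv_div, div_pow, ← pow_mul]
        field_simp
  calc 3 * Real.exp (-(t : ℝ) ^ 2 / 4) * (2 * (t : ℝ) ^ 16 + 2) ^ 3
      ≤ 3 * (((24 + A).factorial : ℝ) * 4 ^ (24 + A) / (t : ℝ) ^ (2 * (24 + A))) * (64 * (t : ℝ) ^ 48) := by
        apply mul_le_mul _ h1 (by positivity) (by positivity)
        exact mul_le_mul_of_nonneg_left h3 (by norm_num)
    _ = 192 * ((24 + A).factorial : ℝ) * 4 ^ (24 + A) / (t : ℝ) ^ (2 * A) := by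
        rw [show 2 * (24 + A) = 48 + 2 * A by ring, pow_add (t : ℝ) 48 (2 * A)]
        field_simp
        ring
    _ ≤ _ := by
        apply div_le_div_of_nonneg_left (by positivity) (by positivity)
        exact pow_le_pow_right₀ (by linarith) (by omega)

end H63

open H63 in
theorem st_C27 (h01 : ST_C01) (h03 : ST_C03) (h04 : ST_C04) (h10 : ST_C10) (h11 : ST_C11) (h13 : ST_C13)
    (h21 : ST_C21) (h24 : ST_C24) (h25 : ST_C25) (h26 : ST_C26) : ST_C27 := by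
  classical
  intro A
  obtain ⟨K0, hK0⟩ := h25 A
  set K1 : ℝ := max K0 0 with hK1
  have hK1n : 0 ≤ K1 := le_max_right _ _
  set CA : ℝ := 192 * ((24 + A).factorial : ℝ) * 4 ^ (24 + A) with hCA
  refine ⟨max (4 * K1) (96 * CA), ?_⟩
  intro t P k ht hP hk
  have ht2 : (2 : ℝ) ≤ t := by exact_mod_cast ht
  have ht16 : (1 : ℤ) ≤ (t : ℤ) ^ 16 := one_le_pow₀ (by exact_mod_cast (by omega : 1 ≤ t))
  have ht56 : (1 : ℝ) < (t : ℝ) ^ 56 := one_lt_pow₀ (by linarith) (by norm_num)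
  have htA : (0 : ℝ) < (t : ℝ) ^ A := by positivity
  set E : ℝ := 3 * Real.exp (-(t : ℝ) ^ 2 / 4) * (2 * (t : ℝ) ^ 16 + 2) ^ 3 with hE
  have hE0 : 0 ≤ E := by positivity
  have hEb : E ≤ CA / (t : ℝ) ^ A := E_bd A t ht
  set κ : ℝ := 1 / (t : ℝ) ^ 56 with hκ
  set r : ℤ := 4 * (t : ℤ) ^ 16 with hr
  have hκ0 : 0 < κ := by positivity
  have hκ1 : κ < 1 := by
    rw [hκ, div_lt_one (by linarith)]
    exact ht56
  have hr1 : 1 ≤ r := by omega
  have hB := Brd_fin P hP k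
  have hMj : ∀ b ∈ Brd P k, TL (Mj κ r P b) (K1 / (t : ℝ) ^ A * Phi P b + 4 * E * Psi P b) := by
    intro b hb
    apply Mj_TL h10 h11 h13 h21 h24 t P k ht hk A K1 hK1n _ b hb
    intro l hl
    refine h11.2.2.2.2.1 _ _ _ (hK0 t l ht hl) ?_
    have h0l : (0 : ℝ) ≤ ((l : ℝ) + 1) ^ 3 := by
      have : (0 : ℝ) ≤ l := by exact_mod_cast (by omega : (0 : ℤ) ≤ l)
      positivity
    apply mul_le_mul_of_nonneg_right _ h0l
    exact div_le_div_of_nonneg_right (le_max_left _ _) htA.le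
  have h1 := h13.2 (Brd P k) (Mj κ r P) _ hB hMj
  have h2 := h11.2.1 4 _ _ (by norm_num) h1
  have e1 : Kst P k = ∑ b ∈ hB.toFinset, Phi P b := by
    rw [Kst, finsum_mem_eq_finite_toFinset_sum _ hB]
    rfl
  have e2 : ∑ b ∈ hB.toFinset, Psi P b ≤ 6 * Kst P (k + 1) := by
    have := h26 P k hP (by omega)
    rw [finsum_mem_eq_finite_toFinset_sum _ hB] at this
    exact this
  have hk0 := Phi_nonneg' P k (by omega) hP
  have hk1 := Phi_nonneg' P (k + 1) (by omega) hP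
  have h3 : TL (BS t P k) (4 * ∑ᶠ b ∈ Brd P k, (K1 / (t : ℝ) ^ A * Phi P b + 4 * E * Psi P b)) := by
    refine h11.2.2.2.1 _ _ _ ?_ ?_ h2
    · intro n
      rw [BS, PowerSeries.coeff_mk]
      positivity
    · intro N
      refine (BS_coeff h01 h04 t P N k ht hP (by omega)).trans ?_
      rw [PowerSeries.coeff_C_mul, h03 _ _ P k hP, h03 _ _ P k hP, finsum_mem_eq_finite_toFinset_sum _ hB,
        finsum_mem_eq_finite_toFinset_sum _ hB, finsum_mem_eq_finite_toFinset_sum _ hB, ← map_sub,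
        ← Finset.sum_sub_distrib, map_sum, map_sum]
      apply mul_le_mul_of_nonneg_left _ (by norm_num)
      apply Finset.sum_le_sum
      intro b hb
      rw [hB.mem_toFinset] at hb
      have hbk : ∀ i ∈ dn P b, k + 1 ≤ b i := by
        intro i hi
        rw [dn, Finset.mem_filter] at hi
        have := hb.2.2.1 (i + 1)
        omega
      have h4 := NN_tele (dn P b) (fun j => TS one (dmp κ r 1) (b j)) (fun j => TS one (dmp κ r 2) (b j)) ?_ ?_ ?_ N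
      · rw [map_sub, sub_nonneg] at h4
        exact h4
      · intro i hi
        have hbi := hbk i hi
        exact ((h21 κ r hκ0 hκ1 hr1).2.2 (b i) (by omega) 1 (by simp) (by omega)).1.1
      · intro i hi
        have hbi := hbk i hi
        exact ((h21 κ r hκ0 hκ1 hr1).2.2 (b i) (by omega) 2 (by simp) (by omega)).1.1
      · intro i hi
        have hbi := hbk i hi
        show NN (TS one (dmp κ r 1) (b i) - TS one (dmp κ r 2) (b i))
        rw [DD_eq _ _ _ (by omega)]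
        exact ((h21 κ r hκ0 hκ1 hr1).2.1 (b i) (by omega)).1.1
  refine h11.2.2.2.2.1 _ _ _ h3 ?_
  rw [finsum_mem_eq_finite_toFinset_sum _ hB, Finset.sum_add_distrib, ← Finset.mul_sum, ← Finset.mul_sum, ← e1]
  have h5 : 4 * K1 ≤ max (4 * K1) (96 * CA) := le_max_left _ _
  have h6 : 96 * CA ≤ max (4 * K1) (96 * CA) := le_max_right _ _
  set M := max (4 * K1) (96 * CA) with hM
  have h7 : 4 * (K1 / (t : ℝ) ^ A * Kst P k) ≤ M / (t : ℝ) ^ A * Kst P k := by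
    rw [← mul_assoc, ← mul_div_assoc]
    exact mul_le_mul_of_nonneg_right (div_le_div_of_nonneg_right h5 htA.le) hk0
  have h8 : 4 * (4 * E * ∑ b ∈ hB.toFinset, Psi P b) ≤ M / (t : ℝ) ^ A * Kst P (k + 1) := by
    calc 4 * (4 * E * ∑ b ∈ hB.toFinset, Psi P b) ≤ 4 * (4 * E * (6 * Kst P (k + 1))) := by
          apply mul_le_mul_of_nonneg_left _ (by norm_num)
          exact mul_le_mul_of_nonneg_left e2 (by positivity)
      _ = 96 * E * Kst P (k + 1) := by ring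
      _ ≤ M / (t : ℝ) ^ A * Kst P (k + 1) := by
          apply mul_le_mul_of_nonneg_right _ hk1
          calc 96 * E ≤ 96 * (CA / (t : ℝ) ^ A) := mul_le_mul_of_nonneg_left hEb (by norm_num)
            _ = 96 * CA / (t : ℝ) ^ A := by ring
            _ ≤ _ := div_le_div_of_nonneg_right h6 htA.le
  calc _ = 4 * (K1 / (t : ℝ) ^ A * Kst P k) + 4 * (4 * E * ∑ b ∈ hB.toFinset, Psi P b) := by ring
    _ ≤ M / (t : ℝ) ^ A * Kst P k + M / (t : ℝ) ^ A * Kst P (k + 1) := add_le_add h7 h8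
    _ = _ := by ring

end

end QR
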