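import Pool.Agent.Helper63.QR.C32

/-!
# C30: rotation of the closed walks and first return decomposition
-/

namespace QR

noncomputable section

open Finset

namespace H63

section ring

variable {R : Type*} [CommRing R]

/-- weight of a path from `x` to `h` staying above `h`, coded by a list of steps -/
def val (w : ℤ → R) (h : ℤ) : List Bool → ℤ → R
  | [], x => if x = h then 1 else 0
  | true :: l, x => val w h l (x + 1)
  | false :: l, x => if h ≤ x - 1 then w x * val w h l (x - 1) else 0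

/-- all lists of a given length -/
def lst : ℕ → Finset (List Bool)
  | 0 => {[]}
  | n + 1 => (lst n).image (List.cons true) ∪ (lst n).image (List.cons false)

/-- transfer recursion -/
def ZZ (w : ℤ → R) (h : ℤ) : ℕ → ℤ → R
  | 0, x => if x = h then 1 else 0
  | n + 1, x => ZZ w h n (x + 1) + if h ≤ x - 1 then w x * ZZ w h n (x - 1) else 0

theorem ZZ_eq (w : ℤ → R) (h : ℤ) (n : ℕ) : ∀ x, ∑ l ∈ lst n, val w h l x = ZZ w h n x := by
  induction n with
  | zero => intro x; simp [lst, val, ZZ]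
  | succ n ih =>
    intro x
    have hd : Disjoint ((lst n).image (List.cons true)) ((lst n).image (List.cons false)) := by
      rw [Finset.disjoint_left]
      intro a ha hb
      rw [Finset.mem_image] at ha hb
      obtain ⟨u, _, rfl⟩ := ha
      obtain ⟨v, _, hv⟩ := hb
      simp at hv
    rw [lst, Finset.sum_union hd, Finset.sum_image (fun a _ b _ hab => by simpa using hab),
      Finset.sum_image (fun a _ b _ hab => by simpa using hab), ZZ]
    simp only [val]
    rw [ih]
    by_cases hx : h ≤ x - 1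
    · simp only [if_pos hx]
      rw [← Finset.mul_sum, ih]
    · simp only [if_neg hx, Finset.sum_const_zero]

theorem ZZ_par (w : ℤ → R) (h : ℤ) (n : ℕ) : ∀ x : ℤ, ¬ (2 ∣ (n : ℤ) + x - h) → ZZ w h n x = 0 := by
  induction n with
  | zero =>
    intro x hx
    rw [ZZ, if_neg]
    rintro rfl
    apply hx
    simp
  | succ n ih =>
    intro x hx
    rw [ZZ, ih (x + 1) (by push_cast at hx; omega), ih (x - 1) (by push_cast at hx; omega)]
    simp

theorem ZZ_first (w : ℤ → R) (h : ℤ) (n : ℕ) : ∀ x : ℤ, h + 1 ≤ x →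
    ZZ w h (n + 1) x = ∑ i ∈ range (n + 1), w (h + 1) * ZZ w (h + 1) i x * ZZ w h (n - i) h := by
  induction n with
  | zero =>
    intro x hx
    rw [ZZ, if_pos (by omega), Finset.sum_range_one]
    simp only [ZZ]
    rw [if_neg (by omega)]
    by_cases h1 : x = h + 1
    · subst h1
      simp [ZZ]
    · rw [if_neg (by omega), if_neg h1]
      simp
  | succ n ih =>
    intro x hx
    rw [ZZ, if_pos (by omega), ih (x + 1) (by omega), Finset.sum_range_succ' _ (n + 1)]
    have e1 : ∀ i ∈ range (n + 1), w (h + 1) * ZZ w (h + 1) (i + 1) x * ZZ w h (n + 1 - (i + 1)) h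
        = w (h + 1) * ZZ w (h + 1) i (x + 1) * ZZ w h (n - i) h +
          (if h + 1 ≤ x - 1 then w x * (w (h + 1) * ZZ w (h + 1) i (x - 1) * ZZ w h (n - i) h) else 0) := by
      intro i _
      rw [Nat.add_sub_add_right, ZZ]
      by_cases hc : h + 1 ≤ x - 1
      · rw [if_pos hc, if_pos hc]; ring
      · rw [if_neg hc, if_neg hc]; ring
    rw [Finset.sum_congr rfl e1, Finset.sum_add_distrib, add_assoc]
    congr 1
    by_cases hc : h + 1 ≤ x - 1
    · simp only [if_pos hc]
      rw [ih (x - 1) hc, ← Finset.mul_sum]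
      have : ZZ w (h + 1) 0 x = 0 := by rw [ZZ, if_neg (by omega)]
      rw [this]; ring
    · have hxe : x = h + 1 := by omega
      subst hxe
      simp only [if_neg hc, Finset.sum_const_zero, ZZ, if_true]
      rw [show h + 1 - 1 = h by ring, Nat.sub_zero]
      rw [show ZZ w h (n + 1) h = ZZ w h n (h + 1) + if h ≤ h - 1 then w h * ZZ w h n (h - 1) else 0 from rfl]
      ring

/-- general first-return recursion -/
def gx (w : ℤ → R) : ℕ → ℕ → R
  | 0, _ => 1
  | P + 1, h => ∑ i : Fin (P + 1), w (h + 1) * gx w i (h + 1) * gx w (P - i) h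

theorem sum_even (F : ℕ → R) (hF : ∀ i, F (2 * i + 1) = 0) (P : ℕ) :
    ∑ i ∈ range (2 * P + 1), F i = ∑ i ∈ range (P + 1), F (2 * i) := by
  induction P with
  | zero => simp
  | succ P ih =>
    rw [show 2 * (P + 1) + 1 = (2 * P + 1) + 1 + 1 by ring, Finset.sum_range_succ, Finset.sum_range_succ, ih,
      Finset.sum_range_succ _ (P + 1), hF, add_zero]
    rfl

theorem ZZ_gx (w : ℤ → R) (P : ℕ) : ∀ h : ℕ, ZZ w (h : ℤ) (2 * P) h = gx w P h := by
  induction P using Nat.strong_induction_on with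
  | _ P ih =>
    intro h
    cases P with
    | zero => simp [ZZ, gx]
    | succ P =>
      rw [show 2 * (P + 1) = (2 * P + 1) + 1 by ring, ZZ, if_neg (by omega), add_zero,
        ZZ_first w h (2 * P) (h + 1) le_rfl]
      rw [sum_even (fun i => w (h + 1) * ZZ w (h + 1) i (h + 1) * ZZ w h (2 * P - i) h)]
      · rw [gx, Finset.sum_range (n := P + 1)]
        apply Finset.sum_congr rfl
        intro i _
        have hi := i.2
        have h1 := ih i (by omega) (h + 1)
        have h2 := ih (P - i) (by omega) h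
        push_cast at h1
        rw [h1, show 2 * P - 2 * (i : ℕ) = 2 * (P - i) by omega, h2]
      · intro i
        rw [ZZ_par w ((h : ℤ) + 1) (2 * i + 1) ((h : ℤ) + 1) (by push_cast; omega)]
        ring

/-- list of the steps -/
def stp (b : ℤ → ℤ) : ℕ → ℤ → List Bool
  | 0, _ => []
  | n + 1, m => decide (b (m + 1) = b m + 1) :: stp b n (m + 1)

theorem stp_mem (b : ℤ → ℤ) (n : ℕ) : ∀ m, stp b n m ∈ lst n := by
  induction n with
  | zero => intro m; simp [stp, lst]
  | succ n ih =>
    intro m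
    rw [stp, lst, Finset.mem_union, Finset.mem_image, Finset.mem_image]
    by_cases h : b (m + 1) = b m + 1
    · left; exact ⟨_, ih _, by rw [decide_eq_true h]⟩
    · right; exact ⟨_, ih _, by rw [decide_eq_false h]⟩

theorem stp_inj (b b' : ℤ → ℤ) (hb : ∀ i, b (i + 1) = b i + 1 ∨ b (i + 1) = b i - 1)
    (hb' : ∀ i, b' (i + 1) = b' i + 1 ∨ b' (i + 1) = b' i - 1) (n : ℕ) : ∀ m, b m = b' m →
    stp b n m = stp b' n m → ∀ i : ℕ, i ≤ n → b (m + i) = b' (m + i) := by
  induction n with
  | zero =>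
    intro m hm _ i hi
    obtain rfl : i = 0 := by omega
    simpa using hm
  | succ n ih =>
    intro m hm hs i hi
    rw [stp, stp, List.cons.injEq] at hs
    have h1 : b (m + 1) = b' (m + 1) := by
      have h2 := hs.1
      rw [decide_eq_decide] at h2
      rcases hb m with h3 | h3 <;> rcases hb' m with h4 | h4 <;> omega
    cases i with
    | zero => simpa using hm
    | succ i =>
      have := ih (m + 1) h1 hs.2 i (by omega)
      push_cast
      rw [show m + ((i : ℤ) + 1) = m + 1 + i by ring]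
      exact this

theorem val_stp (w : ℤ → R) (h : ℤ) (b : ℤ → ℤ) (hb : ∀ i, b (i + 1) = b i + 1 ∨ b (i + 1) = b i - 1)
    (hh : ∀ i, h ≤ b i) (n : ℕ) : ∀ m : ℤ, b (m + n) = h →
    val w h (stp b n m) (b m) = ∏ i ∈ range n, (if b (m + i + 1) = b (m + i) - 1 then w (b (m + i)) else 1) := by
  induction n with
  | zero =>
    intro m hm
    rw [stp, val, if_pos (by simpa using hm)]
    simp
  | succ n ih =>
    intro m hm
    rw [stp, Finset.prod_range_succ']
    have h1 := ih (m + 1) (by rw [← hm]; congr 1; push_cast; ring)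
    have e : ∀ i ∈ range n, (if b (m + ((i + 1 : ℕ) : ℤ) + 1) = b (m + ((i + 1 : ℕ) : ℤ)) - 1 then
        w (b (m + ((i + 1 : ℕ) : ℤ))) else 1) =
        (if b (m + 1 + i + 1) = b (m + 1 + i) - 1 then w (b (m + 1 + i)) else 1) := by
      intro i _
      rw [show m + ((i + 1 : ℕ) : ℤ) = m + 1 + i by push_cast; ring]
    rw [Finset.prod_congr rfl e, ← h1]
    simp only [Nat.cast_zero, add_zero]
    rcases hb m with h3 | h3
    · rw [decide_eq_true h3, val, if_neg (by omega), mul_one, h3]
    · rw [decide_eq_false (by omega), val, if_pos (by rw [← h3]; exact hh _), if_pos h3, ← h3, mul_comm]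

end ring

open Classical in
theorem dn_prod {M : Type*} [CommMonoid M] (P : ℕ) (b : ℤ → ℤ) (F : ℤ → M) :
    ∏ i ∈ dn P b, F i = ∏ i ∈ range (2 * P), (if b ((i : ℤ) + 1) = b i - 1 then F i else 1) := by
  rw [dn, Finset.prod_filter]
  have e : Finset.Ico (0 : ℤ) (2 * P) = (range (2 * P)).image (fun i : ℕ => (i : ℤ)) := by
    ext x
    simp only [Finset.mem_Ico, Finset.mem_image, Finset.mem_range]
    constructor
    · rintro ⟨h1, h2⟩
      exact ⟨x.toNat, by omega, by omega⟩
    · rintro ⟨i, hi, rfl⟩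
      constructor
      · omega
      · omega
  rw [e, Finset.prod_image (fun a _ b _ hab => by exact_mod_cast hab)]

/-- dual weights -/
def wd (x : ℤ) : DualNumber ℝ := TrivSqZeroExt.inl (Aw x) + TrivSqZeroExt.inr (((x : ℝ) + 1) ^ 4 * Aw x)

theorem wd_fst (x : ℤ) : (wd x).fst = Aw x := by simp [wd]

theorem wd_snd (x : ℤ) : (wd x).snd = ((x : ℝ) + 1) ^ 4 * Aw x := by simp [wd]

theorem prod_wd (s : Finset ℤ) (b : ℤ → ℤ) : (∏ i ∈ s, wd (b i)).fst = ∏ i ∈ s, Aw (b i) ∧
    (∏ i ∈ s, wd (b i)).snd = (∑ i ∈ s, ((b i : ℝ) + 1) ^ 4) * ∏ i ∈ s, Aw (b i) := by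
  classical
  induction s using Finset.induction_on with
  | empty => simp
  | insert a s ha ih =>
    rw [Finset.prod_insert ha, Finset.prod_insert ha, Finset.sum_insert ha]
    constructor
    · rw [TrivSqZeroExt.fst_mul, ih.1, wd_fst]
    · rw [DualNumber.snd_mul, ih.1, ih.2, wd_fst, wd_snd]
      ring

theorem gx_wd (P : ℕ) : ∀ h : ℕ, (gx wd P h).fst = ex P h ∧ (gx wd P h).snd = sx P h := by
  induction P using Nat.strong_induction_on with
  | _ P ih =>
    intro h
    cases P with
    | zero => simp [gx, ex, sx]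
    | succ P =>
      rw [gx, ex, sx]
      constructor
      · rw [TrivSqZeroExt.fst_sum]
        apply Finset.sum_congr rfl
        intro i _
        have hi := i.2
        rw [TrivSqZeroExt.fst_mul, TrivSqZeroExt.fst_mul, (ih i (by omega) (h + 1)).1,
          (ih (P - i) (by omega) h).1, wd_fst]
      · rw [TrivSqZeroExt.snd_sum]
        apply Finset.sum_congr rfl
        intro i _
        have hi := i.2
        rw [DualNumber.snd_mul, DualNumber.snd_mul, TrivSqZeroExt.fst_mul, (ih i (by omega) (h + 1)).1,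
          (ih (P - i) (by omega) h).1, (ih i (by omega) (h + 1)).2, (ih (P - i) (by omega) h).2, wd_fst, wd_snd]
        push_cast
        ring

theorem val_nonneg (h : ℤ) (hh : 0 ≤ h) (l : List Bool) : ∀ x, h ≤ x →
    0 ≤ (val wd h l x).fst ∧ 0 ≤ (val wd h l x).snd := by
  induction l with
  | nil =>
    intro x _
    rw [val]
    by_cases hx : x = h
    · rw [if_pos hx]; simp
    · rw [if_neg hx]; simp
  | cons a l ih =>
    intro x hx
    cases a with
    | true =>
      rw [val]
      exact ih _ (by omega)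
    | false =>
      rw [val]
      by_cases hc : h ≤ x - 1
      · rw [if_pos hc]
        have h1 := ih (x - 1) hc
        have h2 : 0 ≤ Aw x := by
          have := Aw_nonneg (x - 1).toNat
          rwa [show (((x - 1).toNat : ℕ) : ℤ) + 1 = x by omega] at this
        have h3 : (0 : ℝ) ≤ ((x : ℝ) + 1) ^ 4 * Aw x := mul_nonneg (by positivity) h2
        constructor
        · rw [TrivSqZeroExt.fst_mul, wd_fst]
          exact mul_nonneg h2 h1.1
        · rw [DualNumber.snd_mul, wd_fst, wd_snd]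
          exact add_nonneg (mul_nonneg h2 h1.2) (mul_nonneg h3 h1.1)
      · rw [if_neg hc]; simp

/-- the summand of `Kst` -/
def Phi (P : ℕ) (b : ℤ → ℤ) : ℝ := (∑ i ∈ dn P b, ((b i : ℝ) + 1) ^ 4) * ∏ i ∈ dn P b, Aw (b i)

/-- based walks -/
def TT (P : ℕ) (h : ℤ) : Set (ℤ → ℤ) := {b | b ∈ Brd P h ∧ b 0 = h}

theorem per_mul (P : ℕ) (b : ℤ → ℤ) (hb : ∀ i, b (i + 2 * P) = b i) (n : ℤ) : ∀ i, b (i + n * (2 * P)) = b i := by
  induction n using Int.induction_on with
  | zero => intro i; simp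
  | succ n ih =>
    intro i
    rw [show i + ((n : ℤ) + 1) * (2 * P) = (i + n * (2 * P)) + 2 * P by ring, hb, ih]
  | pred n ih =>
    intro i
    rw [← hb, show i + (-(n : ℤ) - 1) * (2 * P) + 2 * P = i + -(n : ℤ) * (2 * P) by ring, ih]

theorem TT_inj (P : ℕ) (hP : 1 ≤ P) (h : ℤ) : Set.InjOn (fun b => stp b (2 * P) 0) (TT P h) := by
  intro b hb b' hb' he
  funext i
  have h1 := stp_inj b b' hb.1.1 hb'.1.1 (2 * P) 0 (by rw [hb.2, hb'.2]) he
  have h2 : b (i % (2 * P) + i / (2 * P) * (2 * P)) = b' (i % (2 * P) + i / (2 * P) * (2 * P)) := by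
    rw [per_mul P b hb.1.2.1, per_mul P b' hb'.1.2.1]
    have h3 := Int.emod_nonneg i (show (2 * (P : ℤ)) ≠ 0 by omega)
    have h4 := Int.emod_lt_of_pos i (show 0 < 2 * (P : ℤ) by omega)
    have h5 := h1 (i % (2 * P)).toNat (by omega)
    rw [show (0 : ℤ) + ((i % (2 * P)).toNat : ℤ) = i % (2 * P) by omega] at h5
    exact h5
  rw [show i % (2 * P) + i / (2 * P) * (2 * P) = i by
    rw [mul_comm (i / (2 * (P : ℤ)))]; exact Int.emod_add_mul_ediv i (2 * P)] at h2
  exact h2

theorem TT_fin (P : ℕ) (hP : 1 ≤ P) (h : ℤ) : (TT P h).Finite :=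
  Set.Finite.of_injOn (f := fun b => stp b (2 * P) 0) (t := (lst (2 * P) : Set (List Bool)))
    (fun b _ => stp_mem b _ _) (TT_inj P hP h) (Finset.finite_toSet _)

theorem Phi_eq (P : ℕ) (h : ℤ) (b : ℤ → ℤ) (hb : b ∈ TT P h) :
    Phi P b = (val wd h (stp b (2 * P) 0) h).snd := by
  have h1 := val_stp wd h b hb.1.1 hb.1.2.2.1 (2 * P) 0 (by
    have := hb.1.2.1 0
    push_cast
    rw [this, hb.2])
  rw [hb.2] at h1
  rw [h1, Phi, ← (prod_wd (dn P b) b).2, dn_prod]
  congr 1
  apply Finset.prod_congr rfl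
  intro i _
  rw [zero_add]

theorem TT_sum (P h : ℕ) (hP : 1 ≤ P) : ∑ b ∈ (TT_fin P hP h).toFinset, Phi P b ≤ sx P h := by
  classical
  have e1 : ∑ b ∈ (TT_fin P hP h).toFinset, Phi P b =
      ∑ l ∈ (TT_fin P hP h).toFinset.image (fun b => stp b (2 * P) 0), (val wd (h : ℤ) l h).snd := by
    rw [Finset.sum_image]
    · apply Finset.sum_congr rfl
      intro b hb
      exact Phi_eq P h b ((TT_fin P hP h).mem_toFinset.1 hb)
    · intro b hb b' hb' he
      exact TT_inj P hP h ((TT_fin P hP h).mem_toFinset.1 hb) ((TT_fin P hP h).mem_toFinset.1 hb') he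
  rw [e1]
  have e2 : sx P h = ∑ l ∈ lst (2 * P), (val wd (h : ℤ) l h).snd := by
    rw [← TrivSqZeroExt.snd_sum, ZZ_eq, ZZ_gx, (gx_wd P h).2]
  rw [e2]
  apply Finset.sum_le_sum_of_subset_of_nonneg
  · intro l hl
    obtain ⟨b, _, rfl⟩ := Finset.mem_image.1 hl
    exact stp_mem b _ _
  · intro l _ _
    exact (val_nonneg h (by omega) l h le_rfl).2

theorem prod_shift {M : Type*} [CommMonoid M] (n : ℕ) (G : ℤ → M) (hG : ∀ i, G (i + n) = G i) (s : ℕ) :
    ∏ i ∈ range n, G (i + s) = ∏ i ∈ range n, G i := by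
  induction s with
  | zero => simp
  | succ s ih =>
    rw [← ih]
    cases n with
    | zero => simp
    | succ m =>
      rw [Finset.prod_range_succ, Finset.prod_range_succ']
      congr 1
      · apply Finset.prod_congr rfl
        intro i _
        congr 1
        push_cast
        ring
      · rw [← hG (((0 : ℕ) : ℤ) + s)]
        congr 1
        push_cast
        ring

theorem Phi_shift (P : ℕ) (b : ℤ → ℤ) (hb : ∀ i, b (i + 2 * P) = b i) (s : ℕ) :
    Phi P (fun i => b (i + s)) = Phi P b := by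
  rw [Phi, Phi, ← (prod_wd (dn P b) b).2, ← (prod_wd (dn P (fun i => b (i + s))) (fun i => b (i + s))).2,
    dn_prod, dn_prod]
  congr 1
  rw [← prod_shift (2 * P) (fun i : ℤ => if b (i + 1) = b i - 1 then wd (b i) else 1) _ s]
  · apply Finset.prod_congr rfl
    intro i _
    rw [show (i : ℤ) + 1 + s = i + s + 1 by ring]
  · intro i
    push_cast
    rw [show i + 2 * (P : ℤ) + 1 = i + 1 + 2 * P by ring, hb, hb]

theorem Brd_shift (P : ℕ) (h : ℤ) (b : ℤ → ℤ) (hb : b ∈ Brd P h) (s : ℤ) (hs : b s = h) :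
    (fun i => b (i + s)) ∈ TT P h := by
  refine ⟨⟨?_, ?_, ?_, 0, ?_⟩, ?_⟩
  · intro i
    have := hb.1 (i + s)
    show b (i + 1 + s) = b (i + s) + 1 ∨ b (i + 1 + s) = b (i + s) - 1
    rw [show i + 1 + s = i + s + 1 by ring]
    exact this
  · intro i
    show b (i + 2 * P + s) = b (i + s)
    rw [show i + 2 * P + s = i + s + 2 * P by ring, hb.2.1]
  · intro i
    exact hb.2.2.1 _
  · show b (0 + s) = h
    rw [zero_add, hs]
  · show b (0 + s) = h
    rw [zero_add, hs]

theorem Brd_zero (P : ℕ) (hP : 1 ≤ P) (h : ℤ) (b : ℤ → ℤ) (hb : b ∈ Brd P h) :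
    ∃ s ∈ range (2 * P), b (s : ℤ) = h := by
  obtain ⟨i, hi⟩ := hb.2.2.2
  have h3 := Int.emod_nonneg i (show (2 * (P : ℤ)) ≠ 0 by omega)
  have h4 := Int.emod_lt_of_pos i (show 0 < 2 * (P : ℤ) by omega)
  refine ⟨(i % (2 * P)).toNat, by rw [Finset.mem_range]; omega, ?_⟩
  have h2 := per_mul P b hb.2.1 (i / (2 * P)) (i % (2 * P))
  rw [show i % (2 * P) + i / (2 * P) * (2 * P) = i by
    rw [mul_comm (i / (2 * (P : ℤ)))]; exact Int.emod_add_mul_ediv i (2 * P), hi] at h2
  rw [show (((i % (2 * P)).toNat : ℕ) : ℤ) = i % (2 * P) by omega]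
  exact h2.symm

theorem Brd_fin (P : ℕ) (hP : 1 ≤ P) (h : ℤ) : (Brd P h).Finite := by
  have h1 : (⋃ s ∈ (range (2 * P) : Finset ℕ), (fun (b : ℤ → ℤ) (i : ℤ) => b (i - s)) '' TT P h).Finite :=
    (range (2 * P)).finite_toSet.biUnion (fun s _ => (TT_fin P hP h).image _)
  apply h1.subset
  intro b hb
  obtain ⟨s, hs, hs2⟩ := Brd_zero P hP h b hb
  rw [Set.mem_iUnion₂]
  refine ⟨s, hs, fun i => b (i + s), Brd_shift P h b hb s hs2, ?_⟩
  funext i
  show b (i - s + s) = b i
  rw [sub_add_cancel]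

theorem Phi_nonneg (P : ℕ) (h : ℤ) (hh : 0 ≤ h) (b : ℤ → ℤ) (hb : b ∈ Brd P h) : 0 ≤ Phi P b := by
  classical
  apply mul_nonneg
  · apply Finset.sum_nonneg
    intro i _
    positivity
  · apply Finset.prod_nonneg
    intro i hi
    rw [dn, Finset.mem_filter] at hi
    have h1 := hb.2.2.1 (i + 1)
    have := Aw_nonneg (b i - 1).toNat
    rwa [show (((b i - 1).toNat : ℕ) : ℤ) + 1 = b i by omega] at this

end H63

open H63 in
theorem st_C30 : ST_C30 := by
  classical
  intro P h hP
  have hB := Brd_fin P hP h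
  have e1 : Kst P (h : ℤ) = ∑ b ∈ hB.toFinset, Phi P b := by
    rw [Kst, finsum_mem_eq_finite_toFinset_sum _ hB]
    rfl
  have e2 : ∑ b ∈ hB.toFinset, Phi P b ≤
      ∑ b ∈ hB.toFinset, ∑ s ∈ range (2 * P), (if b (s : ℤ) = h then Phi P b else 0) := by
    apply Finset.sum_le_sum
    intro b hb
    rw [hB.mem_toFinset] at hb
    have hn := Phi_nonneg P h (by omega) b hb
    obtain ⟨s, hs, hs2⟩ := Brd_zero P hP h b hb
    calc Phi P b = (if b (s : ℤ) = h then Phi P b else 0) := by rw [if_pos hs2]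
      _ ≤ _ := by
        apply Finset.single_le_sum (f := fun s : ℕ => if b (s : ℤ) = h then Phi P b else 0) _ hs
        intro s' _
        show 0 ≤ (if b (s' : ℤ) = h then Phi P b else 0)
        split_ifs
        · exact hn
        · exact le_rfl
  rw [Finset.sum_comm] at e2
  have e3 : ∀ s ∈ range (2 * P), ∑ b ∈ hB.toFinset, (if b (s : ℤ) = h then Phi P b else 0) ≤ sx P h := by
    intro s _
    refine le_trans ?_ (TT_sum P h hP)
    rw [← Finset.sum_filter]
    have e4 : ∑ b ∈ hB.toFinset.filter (fun b : ℤ → ℤ => b (s : ℤ) = (h : ℤ)), Phi P b =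
        ∑ b ∈ (hB.toFinset.filter (fun b : ℤ → ℤ => b (s : ℤ) = (h : ℤ))).image
          (fun (b : ℤ → ℤ) (i : ℤ) => b (i + s)), Phi P b := by
      rw [Finset.sum_image]
      · apply Finset.sum_congr rfl
        intro b hb
        rw [Finset.mem_filter, hB.mem_toFinset] at hb
        exact (Phi_shift P b hb.1.2.1 s).symm
      · intro b _ b' _ he
        funext i
        have := congrFun he (i - s)
        simpa using this
    rw [e4]
    apply Finset.sum_le_sum_of_subset_of_nonneg
    · intro b' hb'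
      obtain ⟨b, hb, rfl⟩ := Finset.mem_image.1 hb'
      rw [Finset.mem_filter, hB.mem_toFinset] at hb
      rw [(TT_fin P hP h).mem_toFinset]
      exact Brd_shift P h b hb.1 s hb.2
    · intro b hb _
      rw [(TT_fin P hP h).mem_toFinset] at hb
      exact Phi_nonneg P h (by omega) b hb.1
  have e5 := Finset.sum_le_sum e3
  rw [Finset.sum_const, Finset.card_range, nsmul_eq_mul] at e5
  rw [e1]
  refine e2.trans (e5.trans (le_of_eq ?_))
  push_cast
  ring

end

end QR
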