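import Pool.Agent.Helper98.QR.StmtsC

/-! # Row C32: bound for the marked excursions -/

namespace QR

noncomputable section

open Finset

namespace H63

theorem fin_anti (a b : ℕ → ℝ) (P : ℕ) :
    ∑ i : Fin (P + 1), a i * b (P - i) = ∑ q ∈ antidiagonal P, a q.1 * b q.2 := by
  rw [Finset.Nat.sum_antidiagonal_eq_sum_range_succ_mk]
  exact Fin.sum_univ_eq_sum_range (fun i => a i * b (P - i)) (P + 1)

theorem cauchy_le (a b : ℕ → ℝ) (ha : ∀ i, 0 ≤ a i) (hb : ∀ i, 0 ≤ b i) (x : ℝ) (hx : 0 ≤ x)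
    (n : ℕ) :
    ∑ P ∈ range n, (∑ i : Fin (P + 1), a i * b (P - i)) * x ^ P
      ≤ (∑ i ∈ range n, a i * x ^ i) * (∑ j ∈ range n, b j * x ^ j) := by
  classical
  set f : ℕ × ℕ → ℝ := fun q => (a q.1 * x ^ q.1) * (b q.2 * x ^ q.2) with hf
  have hf0 : ∀ q, 0 ≤ f q := fun q =>
    mul_nonneg (mul_nonneg (ha _) (pow_nonneg hx _)) (mul_nonneg (hb _) (pow_nonneg hx _))
  set S : Finset (ℕ × ℕ) := (range n ×ˢ range n).filter (fun q => q.1 + q.2 < n) with hS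
  have h1 : ∑ P ∈ range n, (∑ i : Fin (P + 1), a i * b (P - i)) * x ^ P = ∑ q ∈ S, f q := by
    rw [← Finset.sum_fiberwise_of_maps_to (s := S) (t := range n) (g := fun q => q.1 + q.2)
      (by
        intro q hq
        rw [hS, Finset.mem_filter] at hq
        exact mem_range.2 hq.2)]
    refine Finset.sum_congr rfl fun P hP => ?_
    rw [mem_range] at hP
    rw [fin_anti, Finset.sum_mul]
    have h2 : S.filter (fun q => q.1 + q.2 = P) = antidiagonal P := by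
      ext q
      rw [hS, Finset.mem_filter, Finset.mem_filter, Finset.mem_product, mem_range, mem_range,
        HasAntidiagonal.mem_antidiagonal]
      constructor
      · intro h
        exact h.2
      · intro h
        exact ⟨⟨⟨by omega, by omega⟩, by omega⟩, h⟩
    rw [h2]
    refine Finset.sum_congr rfl fun q hq => ?_
    rw [HasAntidiagonal.mem_antidiagonal] at hq
    rw [hf, ← hq, pow_add]
    ring
  rw [h1, Finset.sum_mul_sum, ← Finset.sum_product']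
  exact Finset.sum_le_sum_of_subset_of_nonneg (Finset.filter_subset _ _) (fun q _ _ => hf0 q)

theorem Aw_nonneg (h : ℕ) : 0 ≤ Aw ((h : ℤ) + 1) := by
  unfold Aw
  push_cast
  positivity

theorem ex_nonneg : ∀ P h, 0 ≤ ex P h := by
  intro P
  induction P using Nat.strong_induction_on with
  | _ P ih =>
    intro h
    cases P with
    | zero => rw [ex]; exact zero_le_one
    | succ P =>
      rw [ex]
      refine Finset.sum_nonneg fun i _ => ?_
      have h1 : (i : ℕ) < P + 1 := i.2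
      exact mul_nonneg (mul_nonneg (Aw_nonneg h) (ih _ (by omega) _)) (ih _ (by omega) _)

theorem sx_nonneg : ∀ P h, 0 ≤ sx P h := by
  intro P
  induction P using Nat.strong_induction_on with
  | _ P ih =>
    intro h
    cases P with
    | zero => rw [sx]
    | succ P =>
      rw [sx]
      refine Finset.sum_nonneg fun i _ => ?_
      have h1 : (i : ℕ) < P + 1 := i.2
      have e1 := ex_nonneg i (h + 1)
      have e2 := ex_nonneg (P - i) h
      have e3 := ih i (by omega) (h + 1)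
      have e4 := ih (P - i) (by omega) h
      have e5 : (0 : ℝ) ≤ (h + 2 : ℝ) ^ 4 := by positivity
      exact mul_nonneg (Aw_nonneg h) (add_nonneg (add_nonneg
        (mul_nonneg (mul_nonneg e5 e1) e2) (mul_nonneg e3 e2)) (mul_nonneg e1 e4))

/-- partial sums -/
def Es (x : ℝ) (n h : ℕ) : ℝ := ∑ P ∈ range n, ex P h * x ^ P

/-- partial sums -/
def Ss (x : ℝ) (n h : ℕ) : ℝ := ∑ P ∈ range n, sx P h * x ^ P

theorem Es_nonneg {x : ℝ} (hx : 0 ≤ x) (n h : ℕ) : 0 ≤ Es x n h :=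
  Finset.sum_nonneg fun P _ => mul_nonneg (ex_nonneg P h) (pow_nonneg hx P)

theorem Ss_nonneg {x : ℝ} (hx : 0 ≤ x) (n h : ℕ) : 0 ≤ Ss x n h :=
  Finset.sum_nonneg fun P _ => mul_nonneg (sx_nonneg P h) (pow_nonneg hx P)

theorem Ss_succ_le {x : ℝ} (hx : 0 ≤ x) (n h : ℕ) :
    Ss x (n + 1) h ≤ x * Aw ((h : ℤ) + 1) * ((h + 2 : ℝ) ^ 4 * (Es x n (h + 1) * Es x n h)
      + Ss x n (h + 1) * Es x n h + Es x n (h + 1) * Ss x n h) := by
  have h1 : Ss x (n + 1) h = x * Aw ((h : ℤ) + 1) * ((h + 2 : ℝ) ^ 4 *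
      (∑ P ∈ range n, (∑ i : Fin (P + 1), ex i (h + 1) * ex (P - i) h) * x ^ P)
      + (∑ P ∈ range n, (∑ i : Fin (P + 1), sx i (h + 1) * ex (P - i) h) * x ^ P)
      + (∑ P ∈ range n, (∑ i : Fin (P + 1), ex i (h + 1) * sx (P - i) h) * x ^ P)) := by
    rw [Ss, Finset.sum_range_succ', sx, zero_mul, add_zero, Finset.mul_sum, ← Finset.sum_add_distrib,
      ← Finset.sum_add_distrib, Finset.mul_sum]
    refine Finset.sum_congr rfl fun P _ => ?_
    rw [sx, Finset.sum_mul, Finset.sum_mul, Finset.sum_mul, Finset.sum_mul, Finset.mul_sum,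
      ← Finset.sum_add_distrib, ← Finset.sum_add_distrib, Finset.mul_sum]
    refine Finset.sum_congr rfl fun i _ => ?_
    rw [pow_succ]
    ring
  rw [h1]
  have hA : 0 ≤ x * Aw ((h : ℤ) + 1) := mul_nonneg hx (Aw_nonneg h)
  refine mul_le_mul_of_nonneg_left ?_ hA
  have c1 := cauchy_le (fun i => ex i (h + 1)) (fun i => ex i h) (fun i => ex_nonneg i _)
    (fun i => ex_nonneg i _) x hx n
  have c2 := cauchy_le (fun i => sx i (h + 1)) (fun i => ex i h) (fun i => sx_nonneg i _)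
    (fun i => ex_nonneg i _) x hx n
  have c3 := cauchy_le (fun i => ex i (h + 1)) (fun i => sx i h) (fun i => ex_nonneg i _)
    (fun i => sx_nonneg i _) x hx n
  have e5 : (0 : ℝ) ≤ (h + 2 : ℝ) ^ 4 := by positivity
  have c1' := mul_le_mul_of_nonneg_left c1 e5
  exact add_le_add (add_le_add c1' c2) c3

/-- the supersolution for the excursions -/
def Eb (w : ℝ) (h : ℕ) : ℝ := min (2 / (1 + w)) (2 * ((h : ℝ) + 2) / ((h : ℝ) + 3))

theorem Aw_eq (h : ℕ) : Aw ((h : ℤ) + 1)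
    = 2 * ((h : ℝ) + 1) * ((h : ℝ) + 4) / (((h : ℝ) + 2) * ((h : ℝ) + 3)) := by
  unfold Aw
  push_cast
  congr 1 <;> ring

theorem Aw_le_two (h : ℕ) : Aw ((h : ℤ) + 1) ≤ 2 := by
  rw [Aw_eq, div_le_iff₀ (by positivity)]
  nlinarith [Nat.cast_nonneg (α := ℝ) h]

theorem Eb_pos {w : ℝ} (hw : 0 < w) (h : ℕ) : 0 < Eb w h := by
  rw [Eb, lt_min_iff]
  constructor <;> positivity

theorem Eb_le_two {w : ℝ} (hw : 0 < w) (h : ℕ) : Eb w h ≤ 2 := by
  refine (min_le_left _ _).trans ?_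
  rw [div_le_iff₀ (by positivity)]
  linarith

theorem Eb_super {w : ℝ} (hw : 0 < w) (hw1 : w < 1) (h : ℕ) :
    1 + (1 - w ^ 2) / 8 * Aw ((h : ℤ) + 1) * Eb w (h + 1) * Eb w h ≤ Eb w h := by
  have hx : 0 ≤ (1 - w ^ 2) / 8 := by nlinarith
  have hx8 : (1 - w ^ 2) / 8 ≤ 1 / 8 := by nlinarith [sq_nonneg w]
  have hA := Aw_nonneg h
  have p0 := (Eb_pos hw h).le
  have p1 := (Eb_pos hw (h + 1)).le
  have hh : (0 : ℝ) ≤ h := Nat.cast_nonneg h
  have key1 : 1 + (1 - w ^ 2) / 8 * Aw ((h : ℤ) + 1) * Eb w (h + 1) * Eb w h ≤ 2 / (1 + w) := by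
    have h1 : (1 - w ^ 2) / 8 * Aw ((h : ℤ) + 1) * Eb w (h + 1) * Eb w h
        ≤ (1 - w ^ 2) / 8 * 2 * (2 / (1 + w)) * (2 / (1 + w)) := by
      refine mul_le_mul (mul_le_mul (mul_le_mul_of_nonneg_left (Aw_le_two h) hx) (min_le_left _ _)
        p1 (by positivity)) (min_le_left _ _) p0 (by positivity)
    have h2 : 1 + (1 - w ^ 2) / 8 * 2 * (2 / (1 + w)) * (2 / (1 + w)) = 2 / (1 + w) := by
      field_simp
      ring
    linarith
  have key2 : 1 + (1 - w ^ 2) / 8 * Aw ((h : ℤ) + 1) * Eb w (h + 1) * Eb w h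
      ≤ 2 * ((h : ℝ) + 2) / ((h : ℝ) + 3) := by
    have e1 : Eb w (h + 1) ≤ 2 * ((h : ℝ) + 3) / ((h : ℝ) + 4) := by
      refine (min_le_right _ _).trans (le_of_eq ?_)
      push_cast
      congr 1 <;> ring
    have h1 : (1 - w ^ 2) / 8 * Aw ((h : ℤ) + 1) * Eb w (h + 1) * Eb w h
        ≤ 1 / 8 * Aw ((h : ℤ) + 1) * (2 * ((h : ℝ) + 3) / ((h : ℝ) + 4))
          * (2 * ((h : ℝ) + 2) / ((h : ℝ) + 3)) := by
      refine mul_le_mul (mul_le_mul (mul_le_mul_of_nonneg_right hx8 hA) e1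
        p1 (by positivity)) (min_le_right _ _) p0 (by positivity)
    have h2 : 1 + 1 / 8 * Aw ((h : ℤ) + 1) * (2 * ((h : ℝ) + 3) / ((h : ℝ) + 4))
          * (2 * ((h : ℝ) + 2) / ((h : ℝ) + 3)) = 2 * ((h : ℝ) + 2) / ((h : ℝ) + 3) := by
      rw [Aw_eq]
      field_simp
      ring
    linarith
  exact le_min key1 key2

/-- the two bounds for the transfer factor -/
theorem f_le {w : ℝ} (hw : 0 < w) (hw1 : w < 1) (h : ℕ) :
    (1 - w ^ 2) / 8 * Aw ((h : ℤ) + 1) * Eb w h ^ 2 ≤ (((h : ℝ) + 2) / ((h : ℝ) + 3)) ^ 2 ∧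
    (1 - w ^ 2) / 8 * Aw ((h : ℤ) + 1) * Eb w h ^ 2 ≤ 1 - w := by
  have hx : 0 ≤ (1 - w ^ 2) / 8 := by nlinarith
  have hx8 : (1 - w ^ 2) / 8 ≤ 1 / 8 := by nlinarith [sq_nonneg w]
  have hA := Aw_nonneg h
  have p0 := (Eb_pos hw h).le
  have hh : (0 : ℝ) ≤ h := Nat.cast_nonneg h
  constructor
  · have e1 : Eb w h ^ 2 ≤ (2 * ((h : ℝ) + 2) / ((h : ℝ) + 3)) ^ 2 :=
      pow_le_pow_left₀ p0 (min_le_right _ _) 2
    have h1 : (1 - w ^ 2) / 8 * Aw ((h : ℤ) + 1) * Eb w h ^ 2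
        ≤ 1 / 8 * Aw ((h : ℤ) + 1) * (2 * ((h : ℝ) + 2) / ((h : ℝ) + 3)) ^ 2 :=
      mul_le_mul (mul_le_mul_of_nonneg_right hx8 hA) e1 (sq_nonneg _) (by positivity)
    have h2 : 1 / 8 * Aw ((h : ℤ) + 1) * (2 * ((h : ℝ) + 2) / ((h : ℝ) + 3)) ^ 2
        = (((h : ℝ) + 1) * ((h : ℝ) + 4) / (((h : ℝ) + 2) * ((h : ℝ) + 3)))
          * (((h : ℝ) + 2) / ((h : ℝ) + 3)) ^ 2 := by
      rw [Aw_eq]
      field_simp
      ring
    have h3 : ((h : ℝ) + 1) * ((h : ℝ) + 4) / (((h : ℝ) + 2) * ((h : ℝ) + 3)) ≤ 1 := by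
      rw [div_le_one (by positivity)]
      nlinarith
    have h4 : (((h : ℝ) + 1) * ((h : ℝ) + 4) / (((h : ℝ) + 2) * ((h : ℝ) + 3)))
          * (((h : ℝ) + 2) / ((h : ℝ) + 3)) ^ 2 ≤ 1 * (((h : ℝ) + 2) / ((h : ℝ) + 3)) ^ 2 :=
      mul_le_mul_of_nonneg_right h3 (sq_nonneg _)
    rw [one_mul] at h4
    rw [h2] at h1
    exact h1.trans h4
  · have e1 : Eb w h ^ 2 ≤ (2 / (1 + w)) ^ 2 := pow_le_pow_left₀ p0 (min_le_left _ _) 2
    have h1 : (1 - w ^ 2) / 8 * Aw ((h : ℤ) + 1) * Eb w h ^ 2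
        ≤ (1 - w ^ 2) / 8 * 2 * (2 / (1 + w)) ^ 2 :=
      mul_le_mul (mul_le_mul_of_nonneg_left (Aw_le_two h) hx) e1 (sq_nonneg _) (by positivity)
    have h2 : (1 - w ^ 2) / 8 * 2 * (2 / (1 + w)) ^ 2 = (1 - w) / (1 + w) := by
      field_simp
      ring
    have h3 : (1 - w) / (1 + w) ≤ 1 - w := by
      rw [div_le_iff₀ (by positivity)]
      nlinarith
    linarith

open Classical in
/-- the supersolution for the marked excursions, `m = h + 2` -/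
def Tb (w m : ℝ) : ℝ :=
  if m * w ≤ 1 then m ^ 2 * (300000 / w ^ 3 - m ^ 3) else 4 * m ^ 4 / w + 200000 / w ^ 5

theorem Tb_nonneg {w m : ℝ} (hw : 0 < w) (hm : 2 ≤ m) : 0 ≤ Tb w m := by
  unfold Tb
  split_ifs with h
  · have h1 : m ≤ 1 / w := by
      rw [le_div_iff₀ hw]
      exact h
    have h2 : m ^ 3 ≤ (1 / w) ^ 3 := pow_le_pow_left₀ (by linarith) h1 3
    have h3 : (1 / w) ^ 3 ≤ 300000 / w ^ 3 := by
      rw [div_pow, one_pow]
      exact div_le_div_of_nonneg_right (by norm_num) (by positivity)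
    have : 0 ≤ 300000 / w ^ 3 - m ^ 3 := by linarith
    positivity
  · positivity

theorem Tb_super {w m : ℝ} (hw : 0 < w) (hw1 : w ≤ 1 / 2) (hm : 2 ≤ m) (f : ℝ) (hf0 : 0 ≤ f)
    (hf1 : f ≤ (m / (m + 1)) ^ 2) (hf2 : f ≤ 1 - w) :
    f * (2 * m ^ 4 + Tb w (m + 1)) ≤ Tb w m := by
  have hm1 : 2 ≤ m + 1 := by linarith
  have hT1 := Tb_nonneg hw hm1
  have hpos : 0 ≤ 2 * m ^ 4 + Tb w (m + 1) := by positivity
  have hmp : 0 < m := by linarith
  by_cases hA : m * w ≤ 1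
  · -- the first regime
    have h1 : f * (2 * m ^ 4 + Tb w (m + 1)) ≤ (m / (m + 1)) ^ 2 * (2 * m ^ 4 + Tb w (m + 1)) :=
      mul_le_mul_of_nonneg_right hf1 hpos
    refine h1.trans ?_
    have hTm : Tb w m = m ^ 2 * (300000 / w ^ 3 - m ^ 3) := by
      unfold Tb
      rw [if_pos hA]
    rw [hTm]
    have h2 : (m / (m + 1)) ^ 2 * (2 * m ^ 4 + Tb w (m + 1))
        = m ^ 2 * ((2 * m ^ 4 + Tb w (m + 1)) / (m + 1) ^ 2) := by
      rw [div_pow]
      ring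
    rw [h2]
    refine mul_le_mul_of_nonneg_left ?_ (sq_nonneg m)
    rw [div_le_iff₀ (by positivity)]
    by_cases hB : (m + 1) * w ≤ 1
    · have hTm1 : Tb w (m + 1) = (m + 1) ^ 2 * (300000 / w ^ 3 - (m + 1) ^ 3) := by
        unfold Tb
        rw [if_pos hB]
      rw [hTm1]
      have h3 : 2 * m ^ 4 ≤ (m + 1) ^ 2 * ((m + 1) ^ 3 - m ^ 3) := by
        have h4 : (m + 1) ^ 2 * ((m + 1) ^ 3 - m ^ 3) - 2 * m ^ 4
            = m ^ 4 + 9 * m ^ 3 + 10 * m ^ 2 + 5 * m + 1 := by ring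
        have h5 : 0 ≤ m ^ 4 + 9 * m ^ 3 + 10 * m ^ 2 + 5 * m + 1 := by positivity
        linarith
      nlinarith [h3]
    · have hTm1 : Tb w (m + 1) = 4 * (m + 1) ^ 4 / w + 200000 / w ^ 5 := by
        unfold Tb
        rw [if_neg hB]
      rw [hTm1]
      rw [not_le] at hB
      -- set s = 1 / w
      obtain ⟨s, hs⟩ : ∃ s : ℝ, s = 1 / w := ⟨_, rfl⟩
      have hs2 : 2 ≤ s := by
        rw [hs, le_div_iff₀ hw]
        linarith
      have hws : w = 1 / s := by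
        rw [hs, one_div_one_div]
      have hms : m ≤ s := by
        rw [hs, le_div_iff₀ hw]
        exact hA
      have hms1 : s < m + 1 := by
        rw [hs, div_lt_iff₀ hw]
        exact hB
      have e1 : 4 * (m + 1) ^ 4 / w = 4 * (m + 1) ^ 4 * s := by
        rw [hws]; field_simp
      have e2 : 200000 / w ^ 5 = 200000 * s ^ 5 := by
        rw [hws]; field_simp
      have e3 : 300000 / w ^ 3 = 300000 * s ^ 3 := by
        rw [hws]; field_simp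
      rw [e1, e2, e3]
      have sp : 0 < s := by linarith
      have a1 : m ^ 4 ≤ s ^ 4 := pow_le_pow_left₀ hmp.le hms 4
      have a2 : (m + 1) ^ 4 ≤ (2 * s) ^ 4 := pow_le_pow_left₀ (by linarith) (by linarith) 4
      have a3 : s ^ 2 ≤ (m + 1) ^ 2 := pow_le_pow_left₀ sp.le hms1.le 2
      have a4 : m ^ 3 ≤ s ^ 3 := pow_le_pow_left₀ hmp.le hms 3
      have a5 : s ^ 4 ≤ s ^ 5 := by
        have : s ^ 5 = s ^ 4 * s := by ring
        rw [this]
        have : 0 ≤ s ^ 4 := by positivity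
        nlinarith
      have b1 : 2 * m ^ 4 + (4 * (m + 1) ^ 4 * s + 200000 * s ^ 5) ≤ 299999 * s ^ 5 := by
        have : (m + 1) ^ 4 * s ≤ (2 * s) ^ 4 * s := mul_le_mul_of_nonneg_right a2 sp.le
        have h16 : (2 * s) ^ 4 * s = 16 * s ^ 5 := by ring
        have h0 : 0 ≤ s ^ 5 := by positivity
        linarith
      have b2 : 299999 * s ^ 5 ≤ (300000 * s ^ 3 - m ^ 3) * (m + 1) ^ 2 := by
        have c1 : 299999 * s ^ 3 ≤ 300000 * s ^ 3 - m ^ 3 := by linarith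
        have c2 : 299999 * s ^ 3 * s ^ 2 ≤ (300000 * s ^ 3 - m ^ 3) * (m + 1) ^ 2 :=
          mul_le_mul c1 a3 (sq_nonneg s) (le_trans (by positivity) c1)
        have c3 : 299999 * s ^ 3 * s ^ 2 = 299999 * s ^ 5 := by ring
        linarith
      linarith
  · -- the second regime
    have hB : ¬ (m + 1) * w ≤ 1 := by
      intro h
      apply hA
      nlinarith
    have hTm : Tb w m = 4 * m ^ 4 / w + 200000 / w ^ 5 := by
      unfold Tb
      rw [if_neg hA]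
    have hTm1 : Tb w (m + 1) = 4 * (m + 1) ^ 4 / w + 200000 / w ^ 5 := by
      unfold Tb
      rw [if_neg hB]
    have h1 : f * (2 * m ^ 4 + Tb w (m + 1)) ≤ (1 - w) * (2 * m ^ 4 + Tb w (m + 1)) :=
      mul_le_mul_of_nonneg_right hf2 hpos
    refine h1.trans ?_
    rw [hTm, hTm1]
    obtain ⟨s, hs⟩ : ∃ s : ℝ, s = 1 / w := ⟨_, rfl⟩
    have hs2 : 2 ≤ s := by
      rw [hs, le_div_iff₀ hw]
      linarith
    have hws : w = 1 / s := by
      rw [hs, one_div_one_div]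
    have sp : 0 < s := by linarith
    have e1 : 4 * (m + 1) ^ 4 / w = 4 * (m + 1) ^ 4 * s := by
      rw [hws]; field_simp
    have e1' : 4 * m ^ 4 / w = 4 * m ^ 4 * s := by
      rw [hws]; field_simp
    have e2 : 200000 / w ^ 5 = 200000 * s ^ 5 := by
      rw [hws]; field_simp
    rw [e1, e1', e2]
    have hwn : w * (4 * (m + 1) ^ 4 * s + 200000 * s ^ 5) = 4 * (m + 1) ^ 4 + 200000 * s ^ 4 := by
      rw [hws]; field_simp
    have hexp : (1 - w) * (2 * m ^ 4 + (4 * (m + 1) ^ 4 * s + 200000 * s ^ 5))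
        = 2 * m ^ 4 - w * (2 * m ^ 4) + (4 * (m + 1) ^ 4 * s + 200000 * s ^ 5)
          - (4 * (m + 1) ^ 4 + 200000 * s ^ 4) := by
      rw [← hwn]; ring
    rw [hexp]
    have hw2 : 0 ≤ w * (2 * m ^ 4) := by positivity
    -- (m + 1)^4 - m^4 <= 15/2 m^3 * 2
    have hd : (m + 1) ^ 4 ≤ m ^ 4 + 15 * m ^ 3 := by
      have h3 : (m + 1) ^ 4 = m ^ 4 + 4 * m ^ 3 + 6 * m ^ 2 + 4 * m + 1 := by ring
      have h4 : m ^ 2 ≤ m ^ 3 := by nlinarith [sq_nonneg m]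
      have h5 : m ≤ m ^ 3 := by nlinarith [sq_nonneg m]
      have h6 : 1 ≤ m ^ 3 := by nlinarith [sq_nonneg m]
      rw [h3]; linarith
    have hd' : 4 * (m + 1) ^ 4 * s ≤ 4 * (m ^ 4 + 15 * m ^ 3) * s := by
      nlinarith
    have hm4 : m ^ 4 ≤ (m + 1) ^ 4 := pow_le_pow_left₀ hmp.le (by linarith) 4
    -- Young inequality
    have hY : 60 * m ^ 3 * s ≤ 2 * m ^ 4 + 200000 * s ^ 4 := by
      -- with u = m / s : 60 u^3 <= 2 u^4 + 200000
      have hsq : 0 ≤ (m ^ 2 - 30 * m * s / 2 - 112 * s ^ 2) ^ 2 := sq_nonneg _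
      have hsq2 : 0 ≤ (m - 22 * s) ^ 2 := sq_nonneg _
      have hsq3 : 0 ≤ m ^ 2 * (m - 22 * s) ^ 2 := by positivity
      have hsq4 : 0 ≤ s ^ 2 * (m - 23 * s) ^ 2 := by positivity
      have hsq5 : 0 ≤ m * s * (m - 22 * s) ^ 2 := by positivity
      have hsq6 : 0 ≤ m * s * (m - 23 * s) ^ 2 := by positivity
      have hsq7 : 0 ≤ m ^ 2 * (m - 23 * s) ^ 2 := by positivity
      have hs4 : 0 ≤ s ^ 4 := by positivity
      nlinarith [hsq, hsq3, hsq4, hsq5, hsq6, hsq7, hs4]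
    nlinarith [hd', hY, hm4, hw2]

theorem st_C32_aux (h31 : ST_C31) {w : ℝ} (hw : 0 < w) (hw1 : w ≤ 1 / 2) :
    ∀ n h : ℕ, Ss ((1 - w ^ 2) / 8) n h ≤ Tb w ((h : ℝ) + 2) := by
  have hx : 0 ≤ (1 - w ^ 2) / 8 := by nlinarith
  have hw1' : w < 1 := by linarith
  intro n
  induction n with
  | zero =>
    intro h
    have hh : (0 : ℝ) ≤ h := Nat.cast_nonneg h
    rw [Ss, Finset.range_zero, Finset.sum_empty]
    exact Tb_nonneg hw (by linarith)
  | succ n ih =>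
    intro h
    have hh : (0 : ℝ) ≤ h := Nat.cast_nonneg h
    have hE : ∀ k : ℕ, Es ((1 - w ^ 2) / 8) n k ≤ Eb w k := by
      intro k
      obtain ⟨h1, h2⟩ := h31 w n k hw.le hw1'
      exact le_min h1 h2
    have hA := Aw_nonneg h
    have hxA : 0 ≤ (1 - w ^ 2) / 8 * Aw ((h : ℤ) + 1) := mul_nonneg hx hA
    have s0 := Ss_nonneg hx n h
    have s1 := Ss_nonneg hx n (h + 1)
    have e0 := Es_nonneg hx n h
    have e1 := Es_nonneg hx n (h + 1)
    have i0 := ih h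
    have i1 := ih (h + 1)
    have hcast : ((h + 1 : ℕ) : ℝ) + 2 = ((h : ℝ) + 2) + 1 := by push_cast; ring
    rw [hcast] at i1
    set m : ℝ := (h : ℝ) + 2 with hm
    have hm2 : 2 ≤ m := by rw [hm]; linarith
    have T0 := Tb_nonneg hw hm2
    have T1 := Tb_nonneg hw (show 2 ≤ m + 1 by linarith)
    have B0 := Eb_pos hw h
    have B1 := Eb_pos hw (h + 1)
    have hstep := Ss_succ_le hx n h
    have m4 : (0 : ℝ) ≤ m ^ 4 := by positivity
    have hb1 : (h + 2 : ℝ) ^ 4 * (Es ((1 - w ^ 2) / 8) n (h + 1) * Es ((1 - w ^ 2) / 8) n h)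
        ≤ m ^ 4 * (2 * Eb w h) := by
      refine mul_le_mul_of_nonneg_left ?_ m4
      exact mul_le_mul ((hE (h + 1)).trans (Eb_le_two hw _)) (hE h) e0 (by norm_num)
    have hb2 : Ss ((1 - w ^ 2) / 8) n (h + 1) * Es ((1 - w ^ 2) / 8) n h
        ≤ Tb w (m + 1) * Eb w h := mul_le_mul i1 (hE h) e0 T1
    have hb3 : Es ((1 - w ^ 2) / 8) n (h + 1) * Ss ((1 - w ^ 2) / 8) n h
        ≤ Eb w (h + 1) * Tb w m := mul_le_mul (hE _) i0 s0 B1.le
    have hle : Ss ((1 - w ^ 2) / 8) (n + 1) h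
        ≤ (1 - w ^ 2) / 8 * Aw ((h : ℤ) + 1) * (m ^ 4 * (2 * Eb w h) + Tb w (m + 1) * Eb w h
          + Eb w (h + 1) * Tb w m) :=
      hstep.trans (mul_le_mul_of_nonneg_left (add_le_add (add_le_add hb1 hb2) hb3) hxA)
    refine hle.trans ?_
    obtain ⟨f1, f2⟩ := f_le hw hw1' h
    have hm3 : (h : ℝ) + 3 = m + 1 := by rw [hm]; ring
    rw [hm3, ← hm] at f1
    have hf0 : 0 ≤ (1 - w ^ 2) / 8 * Aw ((h : ℤ) + 1) * Eb w h ^ 2 := mul_nonneg hxA (sq_nonneg _)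
    have hT := Tb_super hw hw1 hm2 _ hf0 f1 f2
    have hS := Eb_super hw hw1' h
    -- notation
    obtain ⟨a, ha⟩ : ∃ a : ℝ, a = (1 - w ^ 2) / 8 * Aw ((h : ℤ) + 1) := ⟨_, rfl⟩
    rw [← ha] at hT hS hxA ⊢
    set E0 := Eb w h
    set E1 := Eb w (h + 1)
    set t0 := Tb w m
    set t1 := Tb w (m + 1)
    -- E0 (1 - a E1) >= 1
    have hq : 1 ≤ E0 * (1 - a * E1) := by nlinarith
    have hq0 : 0 ≤ 1 - a * E1 := by
      by_contra hneg
      rw [not_le] at hneg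
      have : E0 * (1 - a * E1) < 0 := mul_neg_of_pos_of_neg B0 hneg
      linarith
    have hR : 0 ≤ a * E0 * (2 * m ^ 4 + t1) := by positivity
    have c1 : a * E0 * (2 * m ^ 4 + t1) * 1 ≤ a * E0 * (2 * m ^ 4 + t1) * (E0 * (1 - a * E1)) :=
      mul_le_mul_of_nonneg_left hq hR
    have c2 : a * E0 ^ 2 * (2 * m ^ 4 + t1) * (1 - a * E1) ≤ t0 * (1 - a * E1) :=
      mul_le_mul_of_nonneg_right hT hq0
    nlinarith [c1, c2]

end H63

theorem st_C32 (h31 : ST_C31) : ST_C32 := by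
  refine ⟨300000, by norm_num, fun w n h hw hwh => ?_⟩
  have hh : (0 : ℝ) ≤ h := Nat.cast_nonneg h
  have hw1 : w ≤ 1 / 2 := by nlinarith
  have h1 := H63.st_C32_aux h31 hw hw1 n h
  have h2 : H63.Tb w ((h : ℝ) + 2) ≤ 300000 * ((h : ℝ) + 2) ^ 2 / w ^ 3 := by
    unfold H63.Tb
    rw [if_pos (by rw [mul_comm]; exact hwh)]
    have h3 : 300000 * ((h : ℝ) + 2) ^ 2 / w ^ 3 = ((h : ℝ) + 2) ^ 2 * (300000 / w ^ 3) := by ring
    rw [h3]
    refine mul_le_mul_of_nonneg_left ?_ (sq_nonneg _)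
    have : 0 ≤ ((h : ℝ) + 2) ^ 3 := by positivity
    linarith
  exact h1.trans h2

end

end QR
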