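import Pool.Agent.Helper98.QR.StmtsE

/-!
# E06: the half-planes are regular almost surely
-/

namespace QR

noncomputable section

open Filter Topology MeasureTheory

namespace H63

/-- regularity of the boundary near the root -/
def Zl (l : ℕ) (V : Type) (G : BGraph V) : Prop :=
  (∀ i : ℤ, |i| ≤ l → G.c (G.b i) (G.b (i + 1)) ≠ 0 ∧ G.c (G.b (i + 1)) (G.b i) ≠ 0) ∧
  (∀ i j : ℤ, |i| ≤ l → |j| ≤ l → G.b i = G.b j → i = j)

theorem near_mono {V : Type} (c : V → V → ℕ) (x y : V) (r s : ℕ) (h : r ≤ s) (hr : SPR.Near c r x y) :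
    SPR.Near c s x y := by
  induction s, h using Nat.le_induction with
  | base => exact hr
  | succ s _ ih => exact Or.inl ih

theorem near_self {V : Type} (c : V → V → ℕ) (x : V) (r : ℕ) : SPR.Near c r x x :=
  near_mono c x x 0 r (Nat.zero_le _) rfl

theorem near_bd {V : Type} (G : BGraph V) (l : ℕ) (h : ∀ i : ℤ, |i| ≤ l →
    G.c (G.b i) (G.b (i + 1)) ≠ 0 ∧ G.c (G.b (i + 1)) (G.b i) ≠ 0) :
    ∀ n : ℕ, n ≤ l → SPR.Near G.c (n + 1) (G.b 0) (G.b ((n : ℤ) + 1)) ∧ SPR.Near G.c n (G.b 0) (G.b (-(n : ℤ))) := by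
  intro n
  induction n with
  | zero =>
    intro _
    refine ⟨Or.inr ⟨G.b 0, rfl, ?_⟩, ?_⟩
    · have := (h 0 (by simp)).1
      simpa using this
    · simpa using near_self G.c (G.b 0) 0
  | succ n ih =>
    intro hn
    have ih' := ih (by omega)
    constructor
    · refine Or.inr ⟨G.b ((n : ℤ) + 1), ih'.1, ?_⟩
      have := (h ((n : ℤ) + 1) (by rw [abs_of_nonneg (by omega)]; omega)).1
      push_cast
      exact this
    · refine Or.inr ⟨G.b (-(n : ℤ)), ih'.2, ?_⟩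
      have := (h (-((n : ℤ) + 1)) (by rw [abs_neg, abs_of_nonneg (by omega)]; omega)).2
      rw [show -((n : ℤ) + 1) + 1 = -(n : ℤ) by ring] at this
      push_cast
      exact this

theorem near_bd' {V : Type} (G : BGraph V) (l : ℕ) (h : ∀ i : ℤ, |i| ≤ l →
    G.c (G.b i) (G.b (i + 1)) ≠ 0 ∧ G.c (G.b (i + 1)) (G.b i) ≠ 0) (i : ℤ) (h1 : -(l : ℤ) ≤ i) (h2 : i ≤ l + 1) :
    SPR.Near G.c (l + 2) (G.b 0) (G.b i) := by
  rcases le_or_gt i 0 with h3 | h3
  · have := (near_bd G l h (-i).toNat (by omega)).2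
    rw [show -(((-i).toNat : ℕ) : ℤ) = i by omega] at this
    exact near_mono _ _ _ _ _ (by omega) this
  · have := (near_bd G l h (i - 1).toNat (by omega)).1
    rw [show (((i - 1).toNat : ℕ) : ℤ) + 1 = i by omega] at this
    exact near_mono _ _ _ _ _ (by omega) this

theorem Zl_inv (l : ℕ) (V W : Type) (G : BGraph V) (G' : BGraph W) (h : BIso (l + 2) G G')
    (hn : ∀ i : ℤ, |i| ≤ (l + 2 : ℕ) →
      (SPR.Near G.c (l + 2) (G.b 0) (G.b i) ↔ SPR.Near G'.c (l + 2) (G'.b 0) (G'.b i))) :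
    Zl l V G ↔ Zl l W G' := by
  obtain ⟨e, he1, _, he3⟩ := h
  constructor
  · intro hz
    have hb : ∀ i : ℤ, -(l : ℤ) ≤ i → i ≤ l + 1 → SPR.Near G.c (l + 2) (G.b 0) (G.b i) :=
      fun i h1 h2 => near_bd' G l hz.1 i h1 h2
    have he : ∀ (i : ℤ) (h1 : -(l : ℤ) ≤ i) (h2 : i ≤ l + 1), ((e ⟨G.b i, hb i h1 h2⟩ :
        {v // SPR.Near G'.c (l + 2) (G'.b 0) v}) : W) = G'.b i :=
      fun i h1 h2 => he3 i (hb i h1 h2) (by rw [abs_le]; push_cast; constructor <;> omega)
    constructor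
    · intro i hi
      have hi' := abs_le.1 hi
      have h3 := hz.1 i hi
      have h4 := he1 ⟨G.b i, hb i (by omega) (by omega)⟩ ⟨G.b (i + 1), hb (i + 1) (by omega) (by omega)⟩
      have h5 := he1 ⟨G.b (i + 1), hb (i + 1) (by omega) (by omega)⟩ ⟨G.b i, hb i (by omega) (by omega)⟩
      rw [he i (by omega) (by omega), he (i + 1) (by omega) (by omega)] at h4 h5
      rw [← h4, ← h5]
      exact h3
    · intro i j hi hj hij
      have hi' := abs_le.1 hi
      have hj' := abs_le.1 hj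
      rw [← he i (by omega) (by omega), ← he j (by omega) (by omega)] at hij
      have h6 := e.injective (Subtype.ext hij)
      exact hz.2 i j hi hj (congrArg Subtype.val h6)
  · intro hz
    have hb : ∀ i : ℤ, -(l : ℤ) ≤ i → i ≤ l + 1 → SPR.Near G.c (l + 2) (G.b 0) (G.b i) :=
      fun i h1 h2 => (hn i (by rw [abs_le]; push_cast; constructor <;> omega)).2 (near_bd' G' l hz.1 i h1 h2)
    have he : ∀ (i : ℤ) (h1 : -(l : ℤ) ≤ i) (h2 : i ≤ l + 1), ((e ⟨G.b i, hb i h1 h2⟩ :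
        {v // SPR.Near G'.c (l + 2) (G'.b 0) v}) : W) = G'.b i :=
      fun i h1 h2 => he3 i (hb i h1 h2) (by rw [abs_le]; push_cast; constructor <;> omega)
    constructor
    · intro i hi
      have hi' := abs_le.1 hi
      have h3 := hz.1 i hi
      have h4 := he1 ⟨G.b i, hb i (by omega) (by omega)⟩ ⟨G.b (i + 1), hb (i + 1) (by omega) (by omega)⟩
      have h5 := he1 ⟨G.b (i + 1), hb (i + 1) (by omega) (by omega)⟩ ⟨G.b i, hb i (by omega) (by omega)⟩
      rw [he i (by omega) (by omega), he (i + 1) (by omega) (by omega)] at h4 h5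
      rw [← h4, ← h5] at h3
      exact h3
    · intro i j hi hj hij
      have hi' := abs_le.1 hi
      have hj' := abs_le.1 hj
      apply hz.2 i j hi hj
      rw [← he i (by omega) (by omega), ← he j (by omega) (by omega)]
      congr 2
      exact Subtype.ext hij

end H63

open H63 in
theorem st_E06 (h04 : ST_E04) (h05 : ST_E05) : ST_E06 := by
  intro Ω _ P _ H hH
  have h1 : ∀ l : ℕ, ∀ᵐ ω ∂P, Zl l ℕ (H ω) := by
    intro l
    apply h04 Ω P H hH (l + 2) (Zl l) (Zl_inv l)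
    rw [Filter.eventually_atTop]
    refine ⟨l + 2, fun p hp n x hx => ?_⟩
    have h2 := h05 n p (by omega) x hx
    constructor
    · intro i _
      refine ⟨h2.1 i, ?_⟩
      rw [(h2.2.2 x hx).symm1]
      exact h2.1 i
    · intro i j hi hj hij
      have h3 := (h2.2.1 i j).1 hij
      rw [abs_le] at hi hj
      have h4 := Int.eq_zero_of_abs_lt_dvd h3 (by rw [abs_lt]; constructor <;> omega)
      omega
  have h2 : ∀ᵐ ω ∂P, ∀ l : ℕ, Zl l ℕ (H ω) := ae_all_iff.2 h1
  have hinj : ∀ ω, (∀ l : ℕ, Zl l ℕ (H ω)) → Function.Injective (H ω).b := by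
    intro ω hω i j hij
    exact (hω (i.natAbs + j.natAbs)).2 i j (by rw [Int.abs_eq_natAbs]; omega) (by rw [Int.abs_eq_natAbs]; omega) hij
  have hadj : ∀ ω, (∀ l : ℕ, Zl l ℕ (H ω)) → ∀ i, (H ω).c ((H ω).b i) ((H ω).b (i + 1)) ≠ 0 := by
    intro ω hω i
    exact ((hω i.natAbs).1 i (by rw [Int.abs_eq_natAbs])).1
  filter_upwards [Measure.quasiMeasurePreserving_fst.ae h2, Measure.quasiMeasurePreserving_snd.ae h2] with x hx1 hx2
  have i1 := hinj _ hx1
  have i2 := hinj _ hx2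
  refine ⟨⟨hH.symm _, hH.symm _, hH.locfin _, hH.locfin _, hadj _ hx1, hadj _ hx2, ?_, ?_, ?_⟩, i1, i2⟩
  · intro i j k h
    rw [i1 h]
  · intro i j k h
    rw [i2 h]
  · intro i j
    constructor
    · intro h
      rw [i1 h]
    · intro h
      have := i2 h
      rw [show i = j by omega]

end

end QR
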